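import Pool.Agent.Helper86.Top

/-!
From MacLane's criterion (a basis of the cycle space covering every edge at most twice) to dual
pairs, and from cycles to minimal cuts.
-/

namespace Pool.Agent.Helper86

open Finset

open scoped Classical

variable {V : Type*}

/-- A set of edges meeting every vertex an even number of times (an element of the cycle
space). -/
def IsEven (G : SimpleGraph V) (z : Set (Sym2 V)) : Prop :=
  z ⊆ G.edgeSet ∧ ∀ v, Even {e | e ∈ z ∧ v ∈ e}.ncard

/-- MacLane's planarity criterion: the cycle space has a basis such that every edge lies in at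
most two members of the basis. -/
def MacLane (G : SimpleGraph V) : Prop :=
  ∃ (m : ℕ) (F : Fin m → Set (Sym2 V)), (∀ i, IsEven G (F i)) ∧
    (∀ e, {i | e ∈ F i}.ncard ≤ 2) ∧
    ∀ z, IsEven G z → ∃! A : Finset (Fin m), ∀ e, e ∈ z ↔ Odd {i | i ∈ A ∧ e ∈ F i}.ncard

/-- `2`-colour vectors: difference of the ends. -/
def sdiffU (U : V → ZMod 2) : Sym2 V → ZMod 2 :=
  Sym2.lift ⟨fun x y => U x + U y, fun _ _ => add_comm _ _⟩

theorem sdiffU_mk (U : V → ZMod 2) (x y : V) : sdiffU U s(x, y) = U x + U y := rfl

theorem walk_sum (G : SimpleGraph V) (U : V → ZMod 2) {u v : V} (w : G.Walk u v) :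
    (w.edges.map (sdiffU U)).sum = U u + U v := by
  induction w with
  | nil => simp [z2_add_self]
  | cons h w ih =>
    rw [SimpleGraph.Walk.edges_cons, List.map_cons, List.sum_cons, ih, sdiffU_mk]
    have key : ∀ a b c : ZMod 2, a + b + (b + c) = a + c := by decide
    exact key _ _ _

theorem path_even (G : SimpleGraph V) {u v : V} (q : G.Walk u v) (hq : q.IsPath) :
    ∀ S : Set (Sym2 V), (∀ e ∈ S, e ∈ q.edges) →
      (∀ x, x ≠ v → Even {e | e ∈ S ∧ x ∈ e}.ncard) → S = ∅ := by
  induction q with
  | nil =>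
    intro S hS _
    ext e
    simp only [Set.mem_empty_iff_false, iff_false]
    intro he
    simpa using hS e he
  | @cons u w v h q ih =>
    intro S hS hE
    rw [SimpleGraph.Walk.cons_isPath_iff] at hq
    have huv : u ≠ v := fun h => hq.2 (h ▸ q.end_mem_support)
    have hnot : s(u, w) ∉ S := by
      intro hmem
      have h1 : {e | e ∈ S ∧ u ∈ e} = {s(u, w)} := by
        ext e
        simp only [Set.mem_ofPred_eq, Set.mem_singleton_iff]
        constructor
        · rintro ⟨he, hue⟩
          have h2 := hS e he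
          rw [SimpleGraph.Walk.edges_cons, List.mem_cons] at h2
          rcases h2 with h2 | h2
          · exact h2
          · exact absurd (q.mem_support_of_mem_edges h2 hue) hq.2
        · rintro rfl
          exact ⟨hmem, by simp⟩
      have h2 := hE u huv
      rw [h1, Set.ncard_singleton] at h2
      exact absurd h2 (by decide)
    refine ih hq.1 S (fun e he => ?_) hE
    have h2 := hS e he
    rw [SimpleGraph.Walk.edges_cons, List.mem_cons] at h2
    rcases h2 with rfl | h2
    · exact absurd he hnot
    · exact h2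

theorem cycle_even [Fintype V] (G : SimpleGraph V) {v : V} (p : G.Walk v v) (hp : p.IsCycle) :
    IsEven G {e | e ∈ p.edges} := by
  refine ⟨fun e he => p.edges_subset_edgeSet he, fun x => ?_⟩
  have h1 := (hp.isTrail.even_countP_edges_iff x).mpr (fun h => absurd rfl h)
  have h2 : {e | e ∈ {e | e ∈ p.edges} ∧ x ∈ e} = ((p.edges.filter (fun e => x ∈ e)).toFinset : Set _) := by
    ext e
    simp
  rw [h2, Set.ncard_coe_finset, List.toFinset_card_of_nodup (hp.isTrail.edges_nodup.filter _),
    ← List.countP_eq_length_filter]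
  exact h1

theorem cycle_min [Fintype V] (G : SimpleGraph V) {v : V} (p : G.Walk v v) (hp : p.IsCycle)
    (S : Set (Sym2 V)) (hS : IsEven G S) (hSp : ∀ e ∈ S, e ∈ p.edges) :
    S = ∅ ∨ S = {e | e ∈ p.edges} := by
  have hpe := cycle_even G p hp
  cases p with
  | nil => exact absurd hp (by simp)
  | @cons _ u _ h q =>
    rw [SimpleGraph.Walk.cons_isCycle_iff] at hp
    by_cases hmem : s(v, u) ∈ S
    · right
      have h1 : {e | e ∈ (SimpleGraph.Walk.cons h q).edges} \ S = ∅ := by
        refine path_even G q hp.1 _ ?_ ?_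
        · intro e he
          have h2 := he.1
          simp only [Set.mem_ofPred_eq] at h2
          rw [SimpleGraph.Walk.edges_cons, List.mem_cons] at h2
          rcases h2 with rfl | h2
          · exact absurd hmem he.2
          · exact h2
        · intro x _
          have e1 := hpe.2 x
          have e2 := hS.2 x
          have e3 : {e | e ∈ S ∧ x ∈ e} ⊆
              {e | e ∈ {e | e ∈ (SimpleGraph.Walk.cons h q).edges} ∧ x ∈ e} := by
            intro e he
            exact ⟨hSp e he.1, he.2⟩
          have e4 : {e | e ∈ {e | e ∈ (SimpleGraph.Walk.cons h q).edges} \ S ∧ x ∈ e}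
              = {e | e ∈ {e | e ∈ (SimpleGraph.Walk.cons h q).edges} ∧ x ∈ e} \
                {e | e ∈ S ∧ x ∈ e} := by
            ext e
            simp only [Set.mem_ofPred_eq, Set.mem_sdiff]
            tauto
          rw [e4]
          have e5 := Set.ncard_sdiff_add_ncard_of_subset e3 (Set.toFinite _)
          rw [← e5] at e1
          exact (Nat.even_add.mp e1).mpr e2
      apply Set.Subset.antisymm
      · intro e he; exact hSp e he
      · intro e he
        by_contra hcon
        have : e ∈ {e | e ∈ (SimpleGraph.Walk.cons h q).edges} \ S := ⟨he, hcon⟩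
        rw [h1] at this
        exact this
    · left
      refine path_even G q hp.1 S ?_ (fun x _ => hS.2 x)
      intro e he
      have h2 := hSp e he
      rw [SimpleGraph.Walk.edges_cons, List.mem_cons] at h2
      rcases h2 with rfl | h2
      · exact absurd he hmem
      · exact h2

theorem even_cast (n : ℕ) : Even n ↔ (n : ZMod 2) = 0 := by
  rw [ZMod.natCast_eq_zero_iff_even]

theorem odd_cast (n : ℕ) : Odd n ↔ (n : ZMod 2) = 1 := by
  rw [ZMod.natCast_eq_one_iff_odd]

/-- Indicator with values in `ZMod 2`. -/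
noncomputable def ind (P : Prop) : ZMod 2 := if P then 1 else 0

theorem ind_pos {P : Prop} (h : P) : ind P = 1 := if_pos h

theorem ind_neg {P : Prop} (h : ¬ P) : ind P = 0 := if_neg h

theorem ind_ends {x y v : V} (h : x ≠ y) : ind (v ∈ s(x, y)) = ind (x = v) + ind (y = v) := by
  by_cases h1 : x = v
  · subst h1
    have : y ≠ x := h.symm
    rw [ind_pos (by simp), ind_pos rfl, ind_neg this, add_zero]
  · by_cases h2 : y = v
    · subst h2
      rw [ind_pos (by simp), ind_pos rfl, ind_neg h1, zero_add]
    · have h3 : v ∉ s(x, y) := by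
        rw [Sym2.mem_iff]; push Not; exact ⟨fun h => h1 h.symm, fun h => h2 h.symm⟩
      rw [ind_neg h3, ind_neg h1, ind_neg h2, add_zero]

theorem card_ind {α : Type*} [Fintype α] (P : α → Prop) :
    (({x | P x}.ncard : ℕ) : ZMod 2) = ∑ x, ind (P x) := by
  have h2 : {x | P x} = ((univ.filter (fun x => P x) : Finset _) : Set _) := by
    ext x; simp
  rw [h2, Set.ncard_coe_finset, Finset.card_filter, Nat.cast_sum]
  refine sum_congr rfl (fun x _ => ?_)
  by_cases h3 : P x
  · rw [ind_pos h3, if_pos h3, Nat.cast_one]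
  · rw [ind_neg h3, if_neg h3, Nat.cast_zero]

theorem ind_and (P Q : Prop) : ind (P ∧ Q) = ind P * ind Q := by
  by_cases h1 : P <;> by_cases h2 : Q <;> simp [ind, h1, h2]

section Ends

variable (G : SimpleGraph V) (a b : G.edgeSet → V)
  (hab : ∀ e : G.edgeSet, e.1 = s(a e, b e))

include hab in
theorem ends_ne (e : G.edgeSet) : a e ≠ b e := by
  intro h
  have h1 := e.2
  rw [hab e, h] at h1
  simp at h1

variable [Fintype V]

include hab in
theorem deg_cast (S : Set (Sym2 V)) (hS : S ⊆ G.edgeSet) (v : V) :
    (({e | e ∈ S ∧ v ∈ e}.ncard : ℕ) : ZMod 2)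
      = ∑ e : G.edgeSet, ind (e.1 ∈ S) * (ind (a e = v) + ind (b e = v)) := by
  have h1 : {e | e ∈ S ∧ v ∈ e}
      = Subtype.val '' {e : G.edgeSet | e.1 ∈ S ∧ v ∈ e.1} := by
    ext e
    constructor
    · rintro ⟨h1, h2⟩; exact ⟨⟨e, hS h1⟩, ⟨h1, h2⟩, rfl⟩
    · rintro ⟨e', ⟨h1, h2⟩, rfl⟩; exact ⟨h1, h2⟩
  rw [h1, Set.ncard_image_of_injective _ Subtype.val_injective, card_ind]
  refine sum_congr rfl (fun e _ => ?_)
  rw [ind_and, ← ind_ends (ends_ne G a b hab e), ← hab e]

include hab in
theorem even_vec (S : Set (Sym2 V)) (hS : S ⊆ G.edgeSet) :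
    IsEven G S ↔ ∀ U : V → ZMod 2,
      ∑ e : G.edgeSet, ind (e.1 ∈ S) * (U (a e) + U (b e)) = 0 := by
  constructor
  · intro h U
    have hU : ∀ x, U x = ∑ v, U v * ind (x = v) := by
      intro x
      rw [Finset.sum_eq_single x]
      · rw [ind_pos rfl, mul_one]
      · intro v _ hv
        rw [ind_neg hv.symm, mul_zero]
      · intro h; exact absurd (mem_univ x) h
    calc ∑ e : G.edgeSet, ind (e.1 ∈ S) * (U (a e) + U (b e))
        = ∑ e : G.edgeSet, ∑ v, U v * (ind (e.1 ∈ S) * (ind (a e = v) + ind (b e = v))) := by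
          refine sum_congr rfl (fun e _ => ?_)
          conv_lhs => rw [hU (a e), hU (b e), ← sum_add_distrib, mul_sum]
          refine sum_congr rfl (fun v _ => ?_)
          ring
      _ = ∑ v, U v * (({e | e ∈ S ∧ v ∈ e}.ncard : ℕ) : ZMod 2) := by
          rw [sum_comm]
          refine sum_congr rfl (fun v _ => ?_)
          rw [← mul_sum, deg_cast G a b hab S hS v]
      _ = 0 := by
          refine sum_eq_zero (fun v _ => ?_)
          rw [(even_cast _).mp (h.2 v), mul_zero]
  · intro h
    refine ⟨hS, fun v => ?_⟩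
    rw [even_cast, deg_cast G a b hab S hS v]
    exact h (fun x => ind (x = v))

end Ends

theorem list_sum_edges [Fintype V] (G : SimpleGraph V) (L : List (Sym2 V))
    (hL : ∀ e ∈ L, e ∈ G.edgeSet) (f : Sym2 V → ZMod 2) :
    (L.map f).sum = ∑ e : G.edgeSet, ((L.count e.1 : ℕ) : ZMod 2) * f e.1 := by
  rw [Finset.sum_list_map_count]
  have h1 : ∑ m ∈ L.toFinset, L.count m • f m
      = ∑ m ∈ (univ : Finset G.edgeSet).image Subtype.val, ((L.count m : ℕ) : ZMod 2) * f m := by
    have h2 : ∀ m, L.count m • f m = ((L.count m : ℕ) : ZMod 2) * f m := fun m => by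
      rw [nsmul_eq_mul]
    simp only [h2]
    apply Finset.sum_subset
    · intro e he
      rw [mem_image]
      exact ⟨⟨e, hL e (List.mem_toFinset.mp he)⟩, mem_univ _, rfl⟩
    · intro e _ he
      have : L.count e = 0 := List.count_eq_zero.mpr (fun h => he (List.mem_toFinset.mpr h))
      rw [this, Nat.cast_zero, zero_mul]
  rw [h1, Finset.sum_image (fun x _ y _ h => Subtype.val_injective h)]

/-- A function on edges with zero sum on all closed walks is a coboundary. -/
theorem potential (G : SimpleGraph V) (f : Sym2 V → ZMod 2)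
    (hf : ∀ (v : V) (w : G.Walk v v), (w.edges.map f).sum = 0) :
    ∃ U : V → ZMod 2, ∀ x y, G.Adj x y → f s(x, y) = U x + U y := by
  have indep : ∀ {u u' v : V} (p : G.Walk u v) (q : G.Walk u' v), u = u' →
      (p.edges.map f).sum = (q.edges.map f).sum := by
    intro u u' v p q h
    subst h
    have h1 := hf u (p.append q.reverse)
    rw [SimpleGraph.Walk.edges_append, SimpleGraph.Walk.edges_reverse, List.map_append,
      List.sum_append, List.map_reverse, List.sum_reverse] at h1
    exact (z2_add _ _).mp h1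
  have hr : ∀ c : G.ConnectedComponent, ∃ x, G.connectedComponentMk x = c := by
    intro c
    induction c using SimpleGraph.ConnectedComponent.ind with
    | _ v => exact ⟨v, rfl⟩
  choose rt hrt using hr
  have hr2 : ∀ v, Nonempty (G.Walk (rt (G.connectedComponentMk v)) v) := by
    intro v
    exact SimpleGraph.ConnectedComponent.eq.mp (hrt (G.connectedComponentMk v))
  let P : ∀ v, G.Walk (rt (G.connectedComponentMk v)) v := fun v => (hr2 v).some
  refine ⟨fun v => ((P v).edges.map f).sum, fun x y hxy => ?_⟩
  have hc : G.connectedComponentMk x = G.connectedComponentMk y :=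
    SimpleGraph.ConnectedComponent.eq.mpr hxy.reachable
  have h1 := indep ((P x).concat hxy) (P y) (by rw [hc])
  rw [SimpleGraph.Walk.edges_concat, List.concat_eq_append, List.map_append,
    List.sum_append] at h1
  simp only [List.map_cons, List.map_nil, List.sum_cons, List.sum_nil, add_zero] at h1
  simp only
  rw [← h1]
  have key : ∀ p q : ZMod 2, p = q + (q + p) := by decide
  exact key _ _

theorem face_ends {ι : Type*} (S : Finset ι) (hS : S.card ≤ 2) :
    ∃ l r : Option ι, ∀ A : Option ι → ZMod 2, A l + A r = ∑ i ∈ S, (A (some i) + A none) := by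
  rcases Nat.lt_or_ge S.card 1 with h0 | h1
  · have : S = ∅ := card_eq_zero.mp (by omega)
    subst this
    exact ⟨none, none, fun A => by simp [z2_add_self]⟩
  · rcases Nat.lt_or_ge S.card 2 with h2 | h2
    · obtain ⟨i, rfl⟩ := card_eq_one.mp (by omega : S.card = 1)
      exact ⟨some i, none, fun A => by simp⟩
    · obtain ⟨i, j, hij, rfl⟩ := card_eq_two.mp (by omega : S.card = 2)
      refine ⟨some i, some j, fun A => ?_⟩
      rw [sum_pair hij]
      have key : ∀ a b c : ZMod 2, a + b = a + c + (b + c) := by decide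
      exact key _ _ _

/-- Part of the construction of the dual: the coboundary property. -/
theorem cut_of_even [Fintype V] (G : SimpleGraph V) (a b : G.edgeSet → V)
    (hab : ∀ e : G.edgeSet, e.1 = s(a e, b e)) (z : G.edgeSet → ZMod 2)
    (hz : ∀ S, IsEven G S → ∑ e : G.edgeSet, z e * ind (e.1 ∈ S) = 0) :
    ∃ U : V → ZMod 2, ∀ e, z e = U (a e) + U (b e) := by
  set zz : Sym2 V → ZMod 2 := fun s => if h : s ∈ G.edgeSet then z ⟨s, h⟩ else 0 with hzz
  have hzze : ∀ e : G.edgeSet, zz e.1 = z e := by
    intro e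
    simp only [hzz, e.2, dif_pos]
  have hclosed : ∀ (v : V) (w : G.Walk v v), (w.edges.map zz).sum = 0 := by
    intro v w
    have hsub : ∀ e ∈ w.edges, e ∈ G.edgeSet := fun e he => w.edges_subset_edgeSet he
    set S : Set (Sym2 V) := {s | s ∈ G.edgeSet ∧ ((w.edges.count s : ℕ) : ZMod 2) = 1} with hS
    have hSind : ∀ e : G.edgeSet, ind (e.1 ∈ S) = ((w.edges.count e.1 : ℕ) : ZMod 2) := by
      intro e
      rcases z2_cases ((w.edges.count e.1 : ℕ) : ZMod 2) with h | h
      · rw [ind_neg, h]
        intro h2
        have h3 : ((w.edges.count e.1 : ℕ) : ZMod 2) = 1 := h2.2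
        rw [h] at h3
        exact zero_ne_one h3
      · rw [ind_pos, h]
        exact ⟨e.2, h⟩
    have hev : IsEven G S := by
      rw [even_vec G a b hab S (fun s hs => hs.1)]
      intro U
      have h1 := list_sum_edges G w.edges hsub (sdiffU U)
      rw [walk_sum, z2_add_self] at h1
      calc ∑ e : G.edgeSet, ind (e.1 ∈ S) * (U (a e) + U (b e))
          = ∑ e : G.edgeSet, ((w.edges.count e.1 : ℕ) : ZMod 2) * sdiffU U e.1 := by
            refine sum_congr rfl (fun e _ => ?_)
            rw [hSind]
            congr 1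
            conv_rhs => rw [hab e]
            rfl
        _ = 0 := h1.symm
    rw [list_sum_edges G w.edges hsub zz, ← hz S hev]
    refine sum_congr rfl (fun e _ => ?_)
    rw [hzze, hSind, mul_comm]
  obtain ⟨U, hU⟩ := potential G zz hclosed
  refine ⟨U, fun e => ?_⟩
  have hadj : G.Adj (a e) (b e) := by
    rw [← SimpleGraph.mem_edgeSet, ← hab e]; exact e.2
  rw [← hzze, ← hU _ _ hadj, ← hab e]

/-- A planar graph in the sense of MacLane has a dual. -/
theorem dual_of_maclane [Fintype V] (G : SimpleGraph V) (hM : MacLane G) :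
    ∃ (m : ℕ) (a b : G.edgeSet → V) (l r : G.edgeSet → Option (Fin m)),
      (∀ e : G.edgeSet, e.1 = s(a e, b e)) ∧ IsDual a b l r ∧
      (∀ B : Option (Fin m) → ZMod 2, supp l r B = ∅ → ∀ x y, B x = B y) ∧
      (∀ z, IsEven G z → ∃ B : Option (Fin m) → ZMod 2, ∀ e : G.edgeSet,
        e ∈ supp l r B ↔ e.1 ∈ z) := by
  obtain ⟨m, F, hF1, hF2, hF3⟩ := hM
  have hends : ∀ e : G.edgeSet, ∃ p : V × V, e.1 = s(p.1, p.2) := by
    intro e
    induction h : e.1 using Sym2.ind with
    | _ x y => exact ⟨(x, y), rfl⟩
  choose p hp using hends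
  set a : G.edgeSet → V := fun e => (p e).1 with ha
  set b : G.edgeSet → V := fun e => (p e).2 with hb
  have hab : ∀ e : G.edgeSet, e.1 = s(a e, b e) := hp
  have hSicard : ∀ e : G.edgeSet, (univ.filter (fun i => e.1 ∈ F i)).card ≤ 2 := by
    intro e
    have h1 := hF2 e.1
    have h2 : {i | e.1 ∈ F i} = ((univ.filter (fun i => e.1 ∈ F i) : Finset _) : Set _) := by
      ext i; simp
    rwa [h2, Set.ncard_coe_finset] at h1
  have hlr : ∀ e : G.edgeSet, ∃ q : Option (Fin m) × Option (Fin m),
      ∀ A : Option (Fin m) → ZMod 2,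
      A q.1 + A q.2 = ∑ i, ind (e.1 ∈ F i) * (A (some i) + A none) := by
    intro e
    obtain ⟨l, r, h⟩ := face_ends _ (hSicard e)
    refine ⟨(l, r), fun A => ?_⟩
    rw [h A, sum_filter]
    refine sum_congr rfl (fun i _ => ?_)
    by_cases h : e.1 ∈ F i
    · rw [if_pos h, ind_pos h, one_mul]
    · rw [if_neg h, ind_neg h, zero_mul]
  choose q hq using hlr
  set l : G.edgeSet → Option (Fin m) := fun e => (q e).1 with hl
  set r : G.edgeSet → Option (Fin m) := fun e => (q e).2 with hr
  have hqq : ∀ e (A : Option (Fin m) → ZMod 2),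
      A (l e) + A (r e) = ∑ i, ind (e.1 ∈ F i) * (A (some i) + A none) := hq
  have horth : ∀ (U : V → ZMod 2) (A : Option (Fin m) → ZMod 2),
      ∑ e, (U (a e) + U (b e)) * (A (l e) + A (r e)) = 0 := by
    intro U A
    calc ∑ e, (U (a e) + U (b e)) * (A (l e) + A (r e))
        = ∑ e : G.edgeSet, ∑ i, (A (some i) + A none) *
            (ind (e.1 ∈ F i) * (U (a e) + U (b e))) := by
          refine sum_congr rfl (fun e _ => ?_)
          rw [hqq, mul_sum]
          refine sum_congr rfl (fun i _ => ?_)
          ring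
      _ = ∑ i, (A (some i) + A none) *
            ∑ e : G.edgeSet, ind (e.1 ∈ F i) * (U (a e) + U (b e)) := by
          rw [sum_comm]
          refine sum_congr rfl (fun i _ => ?_)
          rw [mul_sum]
      _ = 0 := by
          refine sum_eq_zero (fun i _ => ?_)
          rw [(even_vec G a b hab (F i) (hF1 i).1).mp (hF1 i) U, mul_zero]
  have hcount : ∀ (T : Finset (Fin m)) (s : Sym2 V),
      (({i | i ∈ T ∧ s ∈ F i}.ncard : ℕ) : ZMod 2) = ∑ i, ind (s ∈ F i) * ind (i ∈ T) := by
    intro T s
    rw [card_ind]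
    refine sum_congr rfl (fun i _ => ?_)
    rw [ind_and, mul_comm]
  have hevenEx : ∀ z, IsEven G z → ∃ B : Option (Fin m) → ZMod 2, ∀ e : G.edgeSet,
      B (l e) + B (r e) = ind (e.1 ∈ z) := by
    intro z hz
    obtain ⟨T, hT, _⟩ := hF3 z hz
    set B : Option (Fin m) → ZMod 2 := fun x => match x with
      | none => 0
      | some i => ind (i ∈ T) with hBdef
    refine ⟨B, fun e => ?_⟩
    rw [hqq e B]
    simp only [hBdef, add_zero]
    rw [← hcount T e.1]
    by_cases h : e.1 ∈ z
    · rw [ind_pos h]
      exact (odd_cast _).mp ((hT e.1).mp h)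
    · rw [ind_neg h]
      have h2 : ¬ Odd _ := fun h3 => h ((hT e.1).mpr h3)
      rw [Nat.not_odd_iff_even] at h2
      exact (even_cast _).mp h2
  refine ⟨m, a, b, l, r, hab, ⟨horth, ?_⟩, ?_, ?_⟩
  · intro z hz
    obtain ⟨U, hU⟩ := cut_of_even G a b hab z (by
      intro S hS
      obtain ⟨B, hB⟩ := hevenEx S hS
      rw [← hz B]
      exact sum_congr rfl (fun e _ => by rw [hB]))
    exact ⟨U, fun e _ => hU e⟩
  · intro B hB
    have h0 : ∀ e : G.edgeSet, B (l e) + B (r e) = 0 := by
      intro e
      have : e ∉ supp l r B := by rw [hB]; simp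
      rw [mem_supp, not_not] at this
      exact (z2_add _ _).mpr this
    set T : Finset (Fin m) := univ.filter (fun i => B (some i) + B none = 1) with hT
    have hemp : IsEven G (∅ : Set (Sym2 V)) := ⟨Set.empty_subset _, fun v => by simp⟩
    obtain ⟨T0, hT0, huniq⟩ := hF3 ∅ hemp
    have hTind : ∀ i, ind (i ∈ T) = B (some i) + B none := by
      intro i
      rcases z2_cases (B (some i) + B none) with h | h
      · rw [h]
        apply ind_neg
        rw [hT, mem_filter, h]
        simp
      · rw [h]
        apply ind_pos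
        rw [hT, mem_filter]
        exact ⟨mem_univ _, h⟩
    have e1 : T = T0 := by
      apply huniq
      intro s
      simp only [Set.mem_empty_iff_false, false_iff, Nat.not_odd_iff_even]
      rw [even_cast, hcount T s]
      by_cases hs : s ∈ G.edgeSet
      · have := h0 ⟨s, hs⟩
        rw [hqq] at this
        simp only [hTind]
        exact this
      · refine sum_eq_zero (fun i _ => ?_)
        have : s ∉ F i := fun h => hs ((hF1 i).1 h)
        rw [ind_neg this, zero_mul]
    have e2 : (∅ : Finset (Fin m)) = T0 := by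
      apply huniq
      intro s
      simp
    have hTe : T = ∅ := by rw [e1, ← e2]
    have hconst : ∀ i, B (some i) = B none := by
      intro i
      have := hTind i
      rw [hTe, ind_neg (notMem_empty i)] at this
      exact (z2_add _ _).mp this.symm
    intro x y
    have hx : ∀ x, B x = B none := by
      intro x
      cases x with
      | none => rfl
      | some i => exact hconst i
    rw [hx x, hx y]
  · intro z hz
    obtain ⟨B, hB⟩ := hevenEx z hz
    refine ⟨B, fun e => ?_⟩
    rw [mem_supp]
    have h1 := hB e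
    by_cases h : e.1 ∈ z
    · rw [ind_pos h] at h1
      simp only [h, iff_true]
      intro h2
      rw [h2, z2_add_self] at h1
      exact zero_ne_one h1
    · rw [ind_neg h] at h1
      simp only [h, iff_false, not_not]
      exact (z2_add _ _).mp h1

end Pool.Agent.Helper86
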