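import Mathlib

/-!
Colourings of the vertices of a sparse graph in which no vertex is isolated in its colour class.
Colours are elements of `ZMod 2`.
-/

namespace Pool.Agent.Helper86

open Finset

open scoped Classical

/-! ### Colour arithmetic -/

theorem z2_add_self (x : ZMod 2) : x + x = 0 := by revert x; decide

theorem z2_ne_iff (x y : ZMod 2) : x ≠ y ↔ x = y + 1 := by revert x y; decide

theorem z2_cases (x : ZMod 2) : x = 0 ∨ x = 1 := by revert x; decide

theorem card_col (Ψ : Type*) [Fintype Ψ] [DecidableEq Ψ] :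
    Fintype.card (Ψ → ZMod 2) = 2 ^ Fintype.card Ψ := by
  rw [Fintype.card_fun, ZMod.card]

/-! ### Blocks -/

section Blocks

variable {Ψ ι : Type*} [Fintype Ψ]

/-- Number of colourings avoiding a prescribed pattern on each of several disjoint blocks. -/
theorem block_lemma (T : ι → Finset Ψ) (pat : ι → Ψ → ZMod 2) (d : ℕ) (B : Finset ι)
    (hd : ∀ i ∈ B, (T i).card ≤ d)
    (hdis : ∀ i ∈ B, ∀ j ∈ B, i ≠ j → Disjoint (T i) (T j)) :
    (univ.filter (fun A : Ψ → ZMod 2 => ∀ i ∈ B, ∃ x ∈ T i, A x ≠ pat i x)).card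
        * (2 ^ d) ^ B.card
      ≤ 2 ^ Fintype.card Ψ * (2 ^ d - 1) ^ B.card := by
  induction B using Finset.induction_on with
  | empty => simp
  | insert i B hi ih =>
    have ih' := ih (fun j hj => hd j (mem_insert_of_mem hj))
      (fun j hj k hk => hdis j (mem_insert_of_mem hj) k (mem_insert_of_mem hk))
    set S : Finset (Ψ → ZMod 2) :=
      univ.filter (fun A : Ψ → ZMod 2 => ∀ i ∈ B, ∃ x ∈ T i, A x ≠ pat i x) with hS
    have hS' : univ.filter (fun A : Ψ → ZMod 2 => ∀ j ∈ insert i B, ∃ x ∈ T j, A x ≠ pat j x)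
        = S.filter (fun A => ∃ x ∈ T i, A x ≠ pat i x) := by
      ext A
      simp only [hS, mem_filter, mem_univ, true_and, mem_insert, forall_eq_or_imp]
      tauto
    rw [hS']
    set S1 := S.filter (fun A => ∃ x ∈ T i, A x ≠ pat i x) with hS1
    set S2 := S.filter (fun A => ¬ ∃ x ∈ T i, A x ≠ pat i x) with hS2
    have hsum : S1.card + S2.card = S.card := Finset.card_filter_add_card_filter_not _
    have hkey : S.card ≤ S2.card * 2 ^ d := by
      have h1 : S.card ≤ (S2 ×ˢ (univ : Finset (T i → ZMod 2))).card := by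
        apply Finset.card_le_card_of_injOn
          (fun A => ((fun x => if x ∈ T i then pat i x else A x), (fun x : T i => A x.1)))
        · intro A hA
          simp only [hS, coe_filter, mem_univ, true_and, Set.mem_ofPred_eq] at hA
          simp only [coe_product, coe_univ, Set.mem_prod, mem_coe, Set.mem_univ, and_true, hS2,
            hS, mem_filter, mem_univ, true_and]
          constructor
          · intro j hj
            obtain ⟨x, hx, hne⟩ := hA j hj
            refine ⟨x, hx, ?_⟩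
            have hji : j ≠ i := by rintro rfl; exact hi hj
            have hxi : x ∉ T i := by
              intro hxi
              exact (Finset.disjoint_left.mp (hdis j (mem_insert_of_mem hj) i
                (mem_insert_self i B) hji) hx) hxi
            simpa [hxi] using hne
          · push Not
            intro x hx
            simp [hx]
        · intro A hA A' hA' h
          simp only [Prod.mk.injEq] at h
          obtain ⟨h1, h2⟩ := h
          funext x
          by_cases hx : x ∈ T i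
          · exact congrFun h2 ⟨x, hx⟩
          · have := congrFun h1 x
            simpa [hx] using this
      rw [card_product] at h1
      refine h1.trans (Nat.mul_le_mul_left _ ?_)
      rw [Finset.card_univ, card_col, Fintype.card_coe]
      exact Nat.pow_le_pow_right (by norm_num) (hd i (mem_insert_self i B))
    rw [card_insert_of_notMem hi]
    have h2 : S1.card * 2 ^ d ≤ S.card * (2 ^ d - 1) := by
      have h3 : S1.card * 2 ^ d + S2.card * 2 ^ d = S.card * 2 ^ d := by rw [← add_mul, hsum]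
      rw [Nat.mul_sub, mul_one]
      omega
    calc S1.card * (2 ^ d) ^ (B.card + 1)
        = (S1.card * 2 ^ d) * (2 ^ d) ^ B.card := by ring
      _ ≤ (S.card * (2 ^ d - 1)) * (2 ^ d) ^ B.card := Nat.mul_le_mul_right _ h2
      _ = (S.card * (2 ^ d) ^ B.card) * (2 ^ d - 1) := by ring
      _ ≤ (2 ^ Fintype.card Ψ * (2 ^ d - 1) ^ B.card) * (2 ^ d - 1) := Nat.mul_le_mul_right _ ih'
      _ = 2 ^ Fintype.card Ψ * (2 ^ d - 1) ^ (B.card + 1) := by ring

theorem bern (m k : ℕ) : m ^ (k + 1) + (k + 1) * m ^ k ≤ (m + 1) ^ (k + 1) := by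
  induction k with
  | zero => simp
  | succ k ih =>
    calc m ^ (k + 1 + 1) + (k + 1 + 1) * m ^ (k + 1)
        ≤ (m ^ (k + 1) + (k + 1) * m ^ k) * (m + 1) := by
          have h1 : m ^ (k + 1) = m ^ k * m := pow_succ m k
          have h2 : m ^ (k + 1 + 1) = m ^ k * m * m := by rw [pow_succ, pow_succ]
          rw [h1, h2]
          nlinarith [Nat.zero_le (m ^ k), Nat.zero_le (k * m ^ k)]
      _ ≤ (m + 1) ^ (k + 1) * (m + 1) := Nat.mul_le_mul_right _ ih
      _ = (m + 1) ^ (k + 1 + 1) := by ring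

theorem half_pow (M : ℕ) (hM : 1 ≤ M) : (M - 1) ^ M * 2 ≤ M ^ M := by
  obtain ⟨m, rfl⟩ : ∃ m, M = m + 1 := ⟨M - 1, by omega⟩
  simp only [Nat.add_sub_cancel]
  have h2 := bern m m
  have h3 : m ^ (m + 1) = m ^ m * m := pow_succ m m
  nlinarith [h2, h3, Nat.zero_le (m ^ m)]

theorem half_pow_mul (M t : ℕ) (hM : 1 ≤ M) : (M - 1) ^ (M * t) * 2 ^ t ≤ M ^ (M * t) := by
  rw [pow_mul, pow_mul, ← mul_pow]
  exact Nat.pow_le_pow_left (half_pow M hM) t

/-- With `2 ^ d * t` disjoint blocks of size at most `d`, the avoiding colourings have density at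
most `2 ^ (-t)`. -/
theorem block_bound (T : ι → Finset Ψ) (pat : ι → Ψ → ZMod 2) (d t : ℕ) (B : Finset ι)
    (hd : ∀ i ∈ B, (T i).card ≤ d)
    (hdis : ∀ i ∈ B, ∀ j ∈ B, i ≠ j → Disjoint (T i) (T j))
    (hB : 2 ^ d * t ≤ B.card) :
    (univ.filter (fun A : Ψ → ZMod 2 => ∀ i ∈ B, ∃ x ∈ T i, A x ≠ pat i x)).card * 2 ^ t
      ≤ 2 ^ Fintype.card Ψ := by
  obtain ⟨B', hB', hc⟩ := Finset.exists_subset_card_eq hB
  have h1 := block_lemma T pat d B' (fun i hi => hd i (hB' hi))
    (fun i hi j hj => hdis i (hB' hi) j (hB' hj))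
  rw [hc] at h1
  have hsub : (univ.filter (fun A : Ψ → ZMod 2 => ∀ i ∈ B, ∃ x ∈ T i, A x ≠ pat i x)).card
      ≤ (univ.filter (fun A : Ψ → ZMod 2 => ∀ i ∈ B', ∃ x ∈ T i, A x ≠ pat i x)).card := by
    apply Finset.card_le_card
    intro A hA
    simp only [mem_filter, mem_univ, true_and] at hA ⊢
    exact fun i hi => hA i (hB' hi)
  set X := (univ.filter (fun A : Ψ → ZMod 2 => ∀ i ∈ B', ∃ x ∈ T i, A x ≠ pat i x)).card
  have hM : 1 ≤ 2 ^ d := Nat.one_le_two_pow
  have h2 := half_pow_mul (2 ^ d) t hM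
  have hpos : 0 < (2 ^ d) ^ (2 ^ d * t) := by positivity
  refine (Nat.mul_le_mul_right _ hsub).trans ?_
  apply Nat.le_of_mul_le_mul_right _ hpos
  calc X * 2 ^ t * (2 ^ d) ^ (2 ^ d * t)
      = (X * (2 ^ d) ^ (2 ^ d * t)) * 2 ^ t := by ring
    _ ≤ (2 ^ Fintype.card Ψ * (2 ^ d - 1) ^ (2 ^ d * t)) * 2 ^ t := Nat.mul_le_mul_right _ h1
    _ = 2 ^ Fintype.card Ψ * ((2 ^ d - 1) ^ (2 ^ d * t) * 2 ^ t) := by ring
    _ ≤ 2 ^ Fintype.card Ψ * (2 ^ d) ^ (2 ^ d * t) := Nat.mul_le_mul_left _ h2

end Blocks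

/-! ### Sunflowers -/

/-- Threshold for the sunflower lemma: `sun q d` sets of size at most `d` contain `q` sets that
are pairwise disjoint outside a common core. -/
def sun (q : ℕ) : ℕ → ℕ
  | 0 => q
  | d + 1 => q + q * (d + 1) * sun q d

theorem sunflower {Ψ ι : Type*} (q d : ℕ) : ∀ (T : ι → Finset Ψ) (B : Finset ι),
    (∀ i ∈ B, (T i).card ≤ d) → sun q d ≤ B.card →
    ∃ (W : Finset Ψ) (B' : Finset ι), B' ⊆ B ∧ q ≤ B'.card ∧ (∀ i ∈ B', W ⊆ T i) ∧
      ∀ i ∈ B', ∀ j ∈ B', i ≠ j → Disjoint (T i \ W) (T j \ W) := by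
  induction d with
  | zero =>
    intro T B hT hB
    refine ⟨∅, B, Subset.refl _, hB, fun i _ => empty_subset _, ?_⟩
    intro i hi j hj _
    have : T i = ∅ := Finset.card_eq_zero.mp (Nat.le_zero.mp (hT i hi))
    simp [this]
  | succ d ih =>
    intro T B hT hB
    set P : Finset (Finset ι) := B.powerset.filter
      (fun C => ∀ i ∈ C, ∀ j ∈ C, i ≠ j → Disjoint (T i) (T j)) with hP
    have hne : P.Nonempty := ⟨∅, by simp [hP]⟩
    obtain ⟨B0, hB0, hmax⟩ := Finset.exists_max_image P Finset.card hne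
    simp only [hP, mem_filter, mem_powerset] at hB0 hmax
    obtain ⟨hB0B, hdis⟩ := hB0
    by_cases hq : q ≤ B0.card
    · exact ⟨∅, B0, hB0B, hq, fun i _ => empty_subset _, fun i hi j hj hij => by
        simpa using hdis i hi j hj hij⟩
    push Not at hq
    set U := B0.biUnion T with hU
    have hUcard : U.card ≤ q * (d + 1) := by
      refine (Finset.card_biUnion_le_card_mul B0 T (d + 1) (fun i hi => hT i (hB0B hi))).trans ?_
      exact Nat.mul_le_mul_right _ hq.le
    have hhit : ∀ i ∈ B \ B0, ∃ x, x ∈ U ∧ x ∈ T i := by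
      intro i hi
      rw [mem_sdiff] at hi
      by_contra hcon
      push Not at hcon
      have h1 : insert i B0 ⊆ B := insert_subset hi.1 hB0B
      have hdi : ∀ j ∈ B0, Disjoint (T i) (T j) := by
        intro j hj
        rw [Finset.disjoint_left]
        intro x hx hxj
        exact hcon x (mem_biUnion.mpr ⟨j, hj, hxj⟩) hx
      have h2 := hmax (insert i B0) ⟨h1, by
        intro a ha b hb hab
        rw [mem_insert] at ha hb
        rcases ha with rfl | ha <;> rcases hb with rfl | hb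
        · exact absurd rfl hab
        · exact hdi b hb
        · exact (hdi a ha).symm
        · exact hdis a ha b hb hab⟩
      rw [card_insert_of_notMem hi.2] at h2
      omega
    have hBc : B.card ≤ (B \ B0).card + B0.card := by
      rw [Finset.card_sdiff_of_subset hB0B]; omega
    simp only [sun] at hB
    have hUne : U.Nonempty := by
      have : (B \ B0).Nonempty := by
        rw [← Finset.card_pos]
        omega
      obtain ⟨i, hi⟩ := this
      obtain ⟨x, hx, _⟩ := hhit i hi
      exact ⟨x, hx⟩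
    have : Nonempty Ψ := ⟨hUne.choose⟩
    choose! g hgU hgT using hhit
    have hn : U.card * sun q d ≤ (B \ B0).card := by
      have := Nat.mul_le_mul_right (sun q d) hUcard
      omega
    obtain ⟨x, hxU, hx⟩ := Finset.exists_le_card_fiber_of_mul_le_card_of_maps_to hgU hUne hn
    set B1 := (B \ B0).filter (fun i => g i = x) with hB1
    have hxT : ∀ i ∈ B1, x ∈ T i := by
      intro i hi
      rw [hB1, mem_filter] at hi
      rw [← hi.2]
      exact hgT i hi.1
    obtain ⟨W, B', hB'1, hB'2, hW, hd⟩ := ih (fun i => (T i).erase x) B1 (by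
      intro i hi
      rw [card_erase_of_mem (hxT i hi)]
      have := hT i (mem_sdiff.mp (mem_filter.mp hi).1).1
      omega) hx
    refine ⟨insert x W, B', ?_, hB'2, ?_, ?_⟩
    · intro i hi
      exact (mem_sdiff.mp (mem_filter.mp (hB'1 hi)).1).1
    · intro i hi
      refine insert_subset (hxT i (hB'1 hi)) ((hW i hi).trans (erase_subset _ _))
    · intro i hi j hj hij
      have := hd i hi j hj hij
      rw [Finset.disjoint_left] at this ⊢
      intro y hy hy'
      simp only [mem_sdiff, mem_insert, not_or] at hy hy'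
      exact this (mem_sdiff.mpr ⟨mem_erase.mpr ⟨hy.2.1, hy.1⟩, hy.2.2⟩)
        (mem_sdiff.mpr ⟨mem_erase.mpr ⟨hy'.2.1, hy'.1⟩, hy'.2.2⟩)

/-! ### Good colourings -/

section Good

variable {Ψ : Type*} [Fintype Ψ]

/-- No vertex is isolated in its colour class, unless it is the whole class. -/
def Good (adj : Ψ → Ψ → Prop) (A : Ψ → ZMod 2) : Prop :=
  ∀ f, (∃ g, g ≠ f ∧ A g = A f) → ∃ g, adj f g ∧ A g = A f

/-- Number of good colourings. -/
noncomputable def numGood (adj : Ψ → Ψ → Prop) : ℕ := (univ.filter (fun A => Good adj A)).card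

/-- Number of good colourings giving the same colour to `w` and `w'`. -/
noncomputable def numEq (adj : Ψ → Ψ → Prop) (w w' : Ψ) : ℕ :=
  (univ.filter (fun A => Good adj A ∧ A w = A w')).card

/-- Open neighbourhood. -/
noncomputable def nb (adj : Ψ → Ψ → Prop) (f : Ψ) : Finset Ψ := univ.filter (fun g => adj f g)

theorem sing_card : (univ.filter (fun A : Ψ → ZMod 2 => ∃ f, ∀ g, g ≠ f → A g ≠ A f)).card
    ≤ 2 * Fintype.card Ψ := by
  have h1 : (univ.filter (fun A : Ψ → ZMod 2 => ∃ f, ∀ g, g ≠ f → A g ≠ A f))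
      ⊆ (univ : Finset (ZMod 2 × Ψ)).image (fun p => fun g => if g = p.2 then p.1 else p.1 + 1) := by
    intro A hA
    simp only [mem_filter, mem_univ, true_and] at hA
    obtain ⟨f, hf⟩ := hA
    rw [mem_image]
    refine ⟨(A f, f), mem_univ _, ?_⟩
    funext g
    by_cases hg : g = f
    · simp [hg]
    · simp only [hg, if_false]
      exact ((z2_ne_iff _ _).mp (hf g hg)).symm
  refine (card_le_card h1).trans (card_image_le.trans ?_)
  rw [card_univ, Fintype.card_prod, ZMod.card]

theorem count_const (adj : Ψ → Ψ → Prop) (hirr : ∀ f, ¬ adj f f) (d t : ℕ) (W B : Finset Ψ)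
    (hW : ∀ f ∈ B, f ∉ W)
    (hd : ∀ f ∈ B, (insert f (nb adj f)).card ≤ d)
    (hdis : ∀ f ∈ B, ∀ g ∈ B, f ≠ g → Disjoint (insert f (nb adj f) \ W) (insert g (nb adj g) \ W))
    (hB : 2 ^ d * (t + 2) ≤ B.card)
    (hN : Fintype.card Ψ * 2 ^ (t + 2) ≤ 2 ^ Fintype.card Ψ) :
    (univ.filter (fun A : Ψ → ZMod 2 => Good adj A ∧ ∃ b, ∀ w ∈ W, A w = b)).card * 2 ^ t
      ≤ 2 ^ Fintype.card Ψ := by
  set Av : ZMod 2 → Finset (Ψ → ZMod 2) := fun b =>
    univ.filter (fun A : Ψ → ZMod 2 => ∀ f ∈ B, ∃ x ∈ insert f (nb adj f) \ W,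
      A x ≠ (if x = f then b + 1 else b)) with hAv
  set Sg := univ.filter (fun A : Ψ → ZMod 2 => ∃ f, ∀ g, g ≠ f → A g ≠ A f) with hSg
  have hsub : univ.filter (fun A : Ψ → ZMod 2 => Good adj A ∧ ∃ b, ∀ w ∈ W, A w = b)
      ⊆ Sg ∪ (Av 0 ∪ Av 1) := by
    intro A hA
    simp only [mem_filter, mem_univ, true_and] at hA
    obtain ⟨hg, b, hb⟩ := hA
    by_cases hs : A ∈ Sg
    · exact mem_union_left _ hs
    apply mem_union_right
    have hAb : A ∈ Av b := by
      simp only [hAv, mem_filter, mem_univ, true_and]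
      intro f hf
      by_contra hcon
      push Not at hcon
      have hAf : A f = b + 1 := by
        have := hcon f (mem_sdiff.mpr ⟨mem_insert_self _ _, hW f hf⟩)
        simpa using this
      apply hs
      simp only [hSg, mem_filter, mem_univ, true_and]
      refine ⟨f, ?_⟩
      by_contra hcon2
      push Not at hcon2
      obtain ⟨g, hgf, hgA⟩ := hcon2
      obtain ⟨x, hx, hxA⟩ := hg f ⟨g, hgf, hgA⟩
      have hne : b ≠ b + 1 := by
        rw [z2_ne_iff, add_assoc, z2_add_self, add_zero]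
      have hxb : A x = b := by
        by_cases hxW : x ∈ W
        · exact hb x hxW
        · by_cases hxf : x = f
          · exfalso
            subst hxf
            exact hirr x hx
          · have := hcon x (mem_sdiff.mpr ⟨mem_insert_of_mem (by simp [nb, hx]), hxW⟩)
            simpa [hxf] using this
      rw [hxb, hAf] at hxA
      exact hne hxA
    rcases z2_cases b with rfl | rfl
    · exact mem_union_left _ hAb
    · exact mem_union_right _ hAb
  have h1 : ∀ b, (Av b).card * 2 ^ (t + 2) ≤ 2 ^ Fintype.card Ψ := by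
    intro b
    have hbb := block_bound (fun f => insert f (nb adj f) \ W)
      (fun f x => if x = f then b + 1 else b) d (t + 2) B (by
        intro f hf
        exact (card_le_card sdiff_subset).trans (hd f hf)) hdis hB
    convert hbb using 3
    ext A
    simp only [hAv, mem_filter, mem_univ, true_and]
  have h2 := (card_le_card hsub).trans ((card_union_le _ _).trans
    (Nat.add_le_add_left (card_union_le _ _) _))
  have h3 : Sg.card ≤ 2 * Fintype.card Ψ := sing_card
  set X := (univ.filter (fun A : Ψ → ZMod 2 => Good adj A ∧ ∃ b, ∀ w ∈ W, A w = b)).card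
  have h40 := h1 0
  have h41 := h1 1
  have hp : 2 ^ (t + 2) = 4 * 2 ^ t := by ring
  rw [hp] at h40 h41 hN
  have h5 : X * 2 ^ t ≤ (2 * Fintype.card Ψ + ((Av 0).card + (Av 1).card)) * 2 ^ t :=
    Nat.mul_le_mul_right _ (h2.trans (Nat.add_le_add_right h3 _))
  nlinarith [h5, h40, h41, hN]

/-! ### Triangular systems of pairs -/

/-- A list of pairs such that each pair is separated by a colouring that separates no pair
occurring later in the list. -/
inductive Tri : List (Ψ × Ψ) → Prop
  | nil : Tri []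
  | cons (p : Ψ × Ψ) (ps : List (Ψ × Ψ)) (Y : Ψ → ZMod 2) (h1 : Y p.1 ≠ Y p.2)
      (h2 : ∀ q ∈ ps, Y q.1 = Y q.2) (h : Tri ps) : Tri (p :: ps)

theorem tri_count {ps : List (Ψ × Ψ)} (h : Tri ps) :
    (univ.filter (fun A : Ψ → ZMod 2 => ∀ p ∈ ps, A p.1 ≠ A p.2)).card * 2 ^ ps.length
      ≤ 2 ^ Fintype.card Ψ := by
  induction h with
  | nil => simp
  | cons p ps Y h1 h2 h ih =>
    set S := univ.filter (fun A : Ψ → ZMod 2 => ∀ p ∈ ps, A p.1 ≠ A p.2) with hS
    have hS' : univ.filter (fun A : Ψ → ZMod 2 => ∀ q ∈ p :: ps, A q.1 ≠ A q.2)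
        = S.filter (fun A => A p.1 ≠ A p.2) := by
      ext A
      simp only [hS, mem_filter, mem_univ, true_and, List.mem_cons, forall_eq_or_imp]
      tauto
    rw [hS']
    have hsum := Finset.card_filter_add_card_filter_not (s := S) (fun A => A p.1 ≠ A p.2)
    have hle : (S.filter (fun A => A p.1 ≠ A p.2)).card
        ≤ (S.filter (fun A => ¬ A p.1 ≠ A p.2)).card := by
      apply Finset.card_le_card_of_injOn (fun A => A + Y)
      · intro A hA
        simp only [hS, coe_filter, mem_filter, mem_univ, true_and, Set.mem_ofPred_eq] at hA ⊢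
        obtain ⟨hA1, hA2⟩ := hA
        refine ⟨fun q hq => ?_, ?_⟩
        · simp only [Pi.add_apply, h2 q hq, ne_eq, add_left_inj]
          exact hA1 q hq
        · simp only [Pi.add_apply]
          rw [z2_ne_iff] at h1 hA2
          rw [h1, hA2]
          push Not
          have : ∀ x y : ZMod 2, x + 1 + (y + 1) = x + y := by decide
          rw [this]
      · intro A _ A' _ h
        exact add_right_cancel h
    rw [List.length_cons, pow_succ]
    nlinarith [ih, hsum, hle, Nat.zero_le (2 ^ ps.length)]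

theorem tri_cover (adj : Ψ → Ψ → Prop) (s : ℕ) (ps : List (Ψ × Ψ))
    (hs : ∀ p ∈ ps, numEq adj p.1 p.2 * 2 ^ s ≤ 2 ^ Fintype.card Ψ) :
    numGood adj * 2 ^ s
      ≤ (univ.filter (fun A : Ψ → ZMod 2 => ∀ p ∈ ps, A p.1 ≠ A p.2)).card * 2 ^ s
        + ps.length * 2 ^ Fintype.card Ψ := by
  have key : numGood adj ≤ (univ.filter
      (fun A : Ψ → ZMod 2 => Good adj A ∧ ∀ p ∈ ps, A p.1 ≠ A p.2)).card
      + (ps.map (fun p => numEq adj p.1 p.2)).sum := by
    clear hs
    induction ps with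
    | nil =>
      simp only [List.map_nil, List.sum_nil, add_zero, numGood]
      apply card_le_card
      intro A hA
      simpa using hA
    | cons p ps ih =>
      have h1 : (univ.filter (fun A : Ψ → ZMod 2 => Good adj A ∧ ∀ q ∈ ps, A q.1 ≠ A q.2)).card
          ≤ (univ.filter
              (fun A : Ψ → ZMod 2 => Good adj A ∧ ∀ q ∈ p :: ps, A q.1 ≠ A q.2)).card
            + numEq adj p.1 p.2 := by
        rw [numEq]
        refine (card_le_card ?_).trans (card_union_le _ _)
        intro A hA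
        simp only [mem_union, mem_filter, mem_univ, true_and, List.mem_cons,
          forall_eq_or_imp] at hA ⊢
        tauto
      simp only [List.map_cons, List.sum_cons]
      omega
  have hsum : (ps.map (fun p => numEq adj p.1 p.2)).sum * 2 ^ s
      ≤ ps.length * 2 ^ Fintype.card Ψ := by
    clear key
    induction ps with
    | nil => simp
    | cons p ps ih =>
      have h1 := hs p (by simp)
      have h2 := ih (fun q hq => hs q (by simp [hq]))
      simp only [List.map_cons, List.sum_cons, List.length_cons]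
      nlinarith [h1, h2]
  have hdrop : (univ.filter
      (fun A : Ψ → ZMod 2 => Good adj A ∧ ∀ p ∈ ps, A p.1 ≠ A p.2)).card
      ≤ (univ.filter (fun A : Ψ → ZMod 2 => ∀ p ∈ ps, A p.1 ≠ A p.2)).card := by
    apply card_le_card
    intro A hA
    simp only [mem_filter, mem_univ, true_and] at hA ⊢
    exact hA.2
  calc numGood adj * 2 ^ s ≤ _ := Nat.mul_le_mul_right _ (key.trans (Nat.add_le_add_right hdrop _))
    _ = _ := add_mul _ _ _
    _ ≤ _ := Nat.add_le_add_left hsum _

/-- A pair of vertices that almost all good colourings separate. -/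
def Sep (adj : Ψ → Ψ → Prop) (γ : ℕ) (w w' : Ψ) : Prop :=
  numEq adj w w' * 2 ^ (2 * γ + 3) ≤ 2 ^ Fintype.card Ψ

theorem no_tri (adj : Ψ → Ψ → Prop) (γ : ℕ)
    (hgood : 2 ^ Fintype.card Ψ ≤ 2 ^ γ * numGood adj)
    (ps : List (Ψ × Ψ)) (hps : Tri ps) (hlen : ps.length = γ + 1)
    (hsep : ∀ p ∈ ps, Sep adj γ p.1 p.2) : False := by
  have h1 := tri_count hps
  have h2 := tri_cover adj (2 * γ + 3) ps hsep
  rw [hlen] at h1 h2
  set X := numGood adj
  set N := Fintype.card Ψ
  set Y := (univ.filter (fun A : Ψ → ZMod 2 => ∀ p ∈ ps, A p.1 ≠ A p.2)).card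
  have hp : 0 < 2 ^ N := by positivity
  have h3 : (2 : ℕ) ^ (2 * γ + 3) = 2 ^ γ * 2 ^ (γ + 1) * 4 := by ring
  have h4 : γ + 1 ≤ 2 ^ (γ + 1) := Nat.lt_two_pow_self.le
  have h5 : Y * 2 ^ (2 * γ + 3) ≤ 2 ^ N * 2 ^ γ * 4 := by
    rw [h3]; nlinarith [h1, Nat.zero_le (2 ^ γ)]
  have h6 : 2 ^ N * (2 ^ (γ + 1) * 4) ≤ X * 2 ^ (2 * γ + 3) := by
    rw [h3]; nlinarith [hgood, Nat.zero_le (2 ^ (γ + 1))]
  have h7 : 2 ^ N * (2 ^ (γ + 1) * 4) ≤ 2 ^ N * (2 ^ γ * 4 + (γ + 1)) := by
    calc _ ≤ _ := h6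
      _ ≤ _ := h2
      _ ≤ 2 ^ N * 2 ^ γ * 4 + (γ + 1) * 2 ^ N := Nat.add_le_add_right h5 _
      _ = _ := by ring
  have h8 := Nat.le_of_mul_le_mul_left h7 hp
  rw [pow_succ] at h8 h4
  have : γ + 1 ≤ 2 ^ γ := Nat.lt_two_pow_self
  omega

theorem sep_ne (adj : Ψ → Ψ → Prop) (γ : ℕ)
    (hgood : 2 ^ Fintype.card Ψ ≤ 2 ^ γ * numGood adj) {w w' : Ψ} (h : Sep adj γ w w') :
    w ≠ w' := by
  rintro rfl
  have h1 : numEq adj w w = numGood adj := by
    simp [numEq, numGood]
  rw [Sep, h1] at h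
  have hp : 0 < 2 ^ Fintype.card Ψ := by positivity
  have h3 : (2 : ℕ) ^ (2 * γ + 3) = 2 ^ γ * 2 ^ (γ + 3) := by ring
  rw [h3] at h
  have h4 : 2 ^ Fintype.card Ψ * 2 ^ (γ + 3) ≤ 2 ^ Fintype.card Ψ := by
    calc _ ≤ (2 ^ γ * numGood adj) * 2 ^ (γ + 3) := Nat.mul_le_mul_right _ hgood
      _ = numGood adj * (2 ^ γ * 2 ^ (γ + 3)) := by ring
      _ ≤ _ := h
  have h5 : (8 : ℕ) ≤ 2 ^ (γ + 3) := by
    calc (8 : ℕ) = 2 ^ 3 := by norm_num
      _ ≤ 2 ^ (γ + 3) := Nat.pow_le_pow_right (by norm_num) (by omega)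
  nlinarith

/-- The vertices occurring in separated pairs. -/
noncomputable def hubs (adj : Ψ → Ψ → Prop) (γ : ℕ) : Finset Ψ :=
  univ.filter (fun w => ∃ w', Sep adj γ w w')

theorem hubs_card (adj : Ψ → Ψ → Prop) (γ : ℕ)
    (hgood : 2 ^ Fintype.card Ψ ≤ 2 ^ γ * numGood adj) : (hubs adj γ).card ≤ 2 * γ := by
  have key : ∀ k : ℕ, ∃ ps : List (Ψ × Ψ), Tri ps ∧ (∀ p ∈ ps, Sep adj γ p.1 p.2) ∧
      (ps.length = k ∨ (ps.length < k ∧
        hubs adj γ ⊆ (ps.map Prod.fst ++ ps.map Prod.snd).toFinset)) := by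
    intro k
    induction k with
    | zero => exact ⟨[], Tri.nil, by simp, by simp⟩
    | succ k ih =>
      obtain ⟨ps, htri, hsep, hlen | ⟨hlen, hsub⟩⟩ := ih
      · by_cases hsub : hubs adj γ ⊆ (ps.map Prod.fst ++ ps.map Prod.snd).toFinset
        · exact ⟨ps, htri, hsep, Or.inr ⟨by omega, hsub⟩⟩
        · obtain ⟨w, hw, hw2⟩ := Finset.not_subset.mp hsub
          simp only [hubs, mem_filter, mem_univ, true_and] at hw
          obtain ⟨w', hw'⟩ := hw
          have hne := sep_ne adj γ hgood hw'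
          simp only [List.mem_toFinset, List.mem_append, List.mem_map, not_or, not_exists,
            not_and] at hw2
          refine ⟨(w, w') :: ps, Tri.cons _ _ (fun x => if x = w then 1 else 0) ?_ ?_ htri, ?_,
            Or.inl (by simp [hlen])⟩
          · simp [hne.symm]
          · intro q hq
            have h1 := hw2.1 q hq
            have h2 := hw2.2 q hq
            simp [h1, h2]
          · intro p hp
            rcases List.mem_cons.mp hp with rfl | hp
            · exact hw'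
            · exact hsep p hp
      · exact ⟨ps, htri, hsep, Or.inr ⟨by omega, hsub⟩⟩
  obtain ⟨ps, htri, hsep, hlen | ⟨hlen, hsub⟩⟩ := key (γ + 1)
  · exact (no_tri adj γ hgood ps htri hlen hsep).elim
  · refine (card_le_card hsub).trans ((List.toFinset_card_le _).trans ?_)
    simp only [List.length_append, List.length_map]
    omega

end Good

end Pool.Agent.Helper86
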