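import Pool.Agent.Helper86.Cycle

/-!
The explicit lower bound for planar graphs with cycles of all lengths `3, ..., n`.
-/

namespace Pool.Agent.Helper86

open Finset

open scoped Classical

/-! ### Cycles give minimal cuts of the dual -/

theorem fam_of_cycles {V : Type*} [Fintype V] (G : SimpleGraph V) {m : ℕ}
    (a b : G.edgeSet → V) (l r : G.edgeSet → Option (Fin m))
    (hab : ∀ e : G.edgeSet, e.1 = s(a e, b e)) (hD : IsDual a b l r)
    (hconn : ∀ B : Option (Fin m) → ZMod 2, supp l r B = ∅ → ∀ x y, B x = B y)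
    (hev : ∀ z, IsEven G z → ∃ B : Option (Fin m) → ZMod 2, ∀ e : G.edgeSet,
        e ∈ supp l r B ↔ e.1 ∈ z) (n : ℕ)
    (hcyc : ∀ k, 3 ≤ k → k ≤ n → ∃ (v : V) (p : G.Walk v v), p.IsCycle ∧ p.length = k) :
    ∃ A : ℕ → Option (Fin m) → ZMod 2, Fam l r n A := by
  have h1 : ∀ k, 3 ≤ k → k ≤ n → ∃ B : Option (Fin m) → ZMod 2, (supp l r B).card = k ∧
      ∀ B', supp l r B' ⊆ supp l r B → supp l r B' = ∅ ∨ supp l r B' = supp l r B := by
    intro k h3 hk
    obtain ⟨v, p, hp, hlen⟩ := hcyc k h3 hk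
    obtain ⟨B, hB⟩ := hev _ (cycle_even G p hp)
    have hB' : ∀ e : G.edgeSet, e ∈ supp l r B ↔ e.1 ∈ p.edges := hB
    refine ⟨B, ?_, ?_⟩
    · have h2 : (supp l r B).image Subtype.val = p.edges.toFinset := by
        ext s
        rw [mem_image, List.mem_toFinset]
        constructor
        · rintro ⟨e, he, rfl⟩; exact (hB' e).mp he
        · intro hs
          exact ⟨⟨s, p.edges_subset_edgeSet hs⟩, (hB' _).mpr hs, rfl⟩
      rw [← card_image_of_injective _ Subtype.val_injective, h2,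
        List.toFinset_card_of_nodup hp.isTrail.edges_nodup, SimpleGraph.Walk.length_edges, hlen]
    · intro B' hsub
      set S : Set (Sym2 V) := {s | ∃ e : G.edgeSet, e ∈ supp l r B' ∧ e.1 = s} with hS
      have hSmem : ∀ e : G.edgeSet, e.1 ∈ S ↔ e ∈ supp l r B' := by
        intro e
        constructor
        · rintro ⟨e', he', h⟩
          rwa [← Subtype.ext h]
        · intro h; exact ⟨e, h, rfl⟩
      have hSsub : S ⊆ G.edgeSet := by
        rintro s ⟨e, _, rfl⟩; exact e.2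
      have hSev : IsEven G S := by
        rw [even_vec G a b hab S hSsub]
        intro U
        rw [← hD.orth U B']
        refine sum_congr rfl (fun e _ => ?_)
        rw [mul_comm]
        congr 1
        by_cases h : e ∈ supp l r B'
        · rw [ind_pos ((hSmem e).mpr h)]
          rw [mem_supp] at h
          have key : ∀ x y : ZMod 2, x ≠ y → 1 = x + y := by decide
          exact key _ _ h
        · rw [ind_neg (fun h2 => h ((hSmem e).mp h2))]
          rw [mem_supp, not_not] at h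
          rw [h, z2_add_self]
      have hSp : ∀ s ∈ S, s ∈ p.edges := by
        rintro s ⟨e, he, rfl⟩
        exact (hB' e).mp (hsub he)
      rcases cycle_min G p hp S hSev hSp with h | h
      · left
        ext e
        rw [← hSmem, h]
        simp
      · right
        ext e
        rw [← hSmem, h, hB']
        rfl
  choose! A hA1 hA2 using h1
  exact ⟨A, hconn, hA1, hA2⟩

/-! ### Numerical bounds -/

/-- Iterated exponentials. -/
def tower : ℕ → ℕ
  | 0 => 1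
  | k + 1 => 2 ^ tower k

theorem tower_succ (k : ℕ) : tower (k + 1) = 2 ^ tower k := rfl

theorem tower_gt (k : ℕ) : k < tower k := by
  induction k with
  | zero => simp [tower]
  | succ k ih =>
    rw [tower_succ]
    have : tower k < 2 ^ tower k := Nat.lt_two_pow_self
    omega

theorem tower_pow (k : ℕ) : 2 ^ k ≤ tower k := by
  cases k with
  | zero => simp [tower]
  | succ k =>
    rw [tower_succ]
    exact Nat.pow_le_pow_right (by norm_num) (tower_gt k)

theorem tower_mono {i j : ℕ} (h : i ≤ j) : tower i ≤ tower j := by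
  induction j, h using Nat.le_induction with
  | base => exact le_rfl
  | succ j _ ih =>
    rw [tower_succ]
    exact ih.trans Nat.lt_two_pow_self.le

theorem sun_le (q : ℕ) (hq : 1 ≤ q) (d : ℕ) : sun q d ≤ (2 * q * (d + 1)) ^ (d + 1) := by
  induction d with
  | zero => simp [sun]; omega
  | succ d ih =>
    have h1 : 1 ≤ (2 * q * (d + 1)) ^ (d + 1) := Nat.one_le_pow _ _ (by positivity)
    have h2 : (2 * q * (d + 1)) ^ (d + 1) ≤ (2 * q * (d + 1 + 1)) ^ (d + 1) :=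
      Nat.pow_le_pow_left (Nat.mul_le_mul_left _ (by omega)) _
    calc sun q (d + 1) = q + q * (d + 1) * sun q d := rfl
      _ ≤ q * (2 * q * (d + 1 + 1)) ^ (d + 1) + q * (d + 1) * (2 * q * (d + 1 + 1)) ^ (d + 1) := by
          have h3 : q ≤ q * (2 * q * (d + 1 + 1)) ^ (d + 1) :=
            Nat.le_mul_of_pos_right _ (by omega)
          have h4 := Nat.mul_le_mul_left (q * (d + 1)) (ih.trans h2)
          omega
      _ = q * (d + 1 + 1) * (2 * q * (d + 1 + 1)) ^ (d + 1) := by ring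
      _ ≤ 2 * q * (d + 1 + 1) * (2 * q * (d + 1 + 1)) ^ (d + 1) := by
          apply Nat.mul_le_mul_right
          nlinarith [Nat.zero_le (q * (d + 1 + 1))]
      _ = (2 * q * (d + 1 + 1)) ^ (d + 1 + 1) := by ring

theorem dd_le (γ : ℕ) : dd γ ≤ 2 ^ (2 * γ + 4) := by
  have h1 : γ + 1 ≤ 2 ^ γ := Nat.lt_two_pow_self
  have h2 : 2 ^ (2 * γ + 4) = 16 * (2 ^ γ * 2 ^ γ) := by ring
  have h3 : (γ + 1) * (γ + 1) ≤ 2 ^ γ * 2 ^ γ := Nat.mul_le_mul h1 h1
  rw [h2]
  unfold dd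
  nlinarith

theorem qq_le (γ : ℕ) : qq γ ≤ 2 ^ (2 * dd γ) := by
  have h1 : 2 * γ + 5 + dd γ ≤ 2 * dd γ := by unfold dd; nlinarith [Nat.zero_le γ]
  have h3 : 7 ≤ dd γ := by unfold dd; omega
  have h2 : 2 * dd γ ≤ 2 ^ dd γ := by
    obtain ⟨t, ht⟩ : ∃ t, dd γ = t + 1 := ⟨dd γ - 1, by omega⟩
    rw [ht, pow_succ]
    have : t + 1 ≤ 2 ^ t := Nat.lt_two_pow_self
    omega
  have h4 : 1 ≤ 2 ^ dd γ := Nat.one_le_two_pow
  calc qq γ = 2 ^ dd γ * (2 * γ + 5) + dd γ := rfl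
    _ ≤ 2 ^ dd γ * (2 * γ + 5) + 2 ^ dd γ * dd γ := by nlinarith
    _ = 2 ^ dd γ * (2 * γ + 5 + dd γ) := by ring
    _ ≤ 2 ^ dd γ * 2 ^ dd γ := Nat.mul_le_mul_left _ (h1.trans h2)
    _ = 2 ^ (2 * dd γ) := by ring

theorem k0_le (γ : ℕ) : k0 γ ≤ 2 ^ (2 ^ (2 * dd γ + 4)) := by
  set d := dd γ with hd
  have hqpos : 1 ≤ qq γ := by unfold qq dd; omega
  have h1 := sun_le (qq γ) hqpos d
  have hq := qq_le γ
  rw [← hd] at hq
  have h2 : 2 * qq γ * (d + 1) ≤ 2 ^ (3 * d + 2) := by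
    have h3 : d + 1 ≤ 2 ^ d := Nat.lt_two_pow_self
    calc 2 * qq γ * (d + 1) ≤ 2 * 2 ^ (2 * d) * 2 ^ d :=
          Nat.mul_le_mul (Nat.mul_le_mul_left _ hq) h3
      _ = 2 ^ (3 * d + 1) := by ring
      _ ≤ 2 ^ (3 * d + 2) := Nat.pow_le_pow_right (by norm_num) (by omega)
  have h4 : (3 * d + 2) * (d + 1) ≤ 2 ^ (2 * d + 4) := by
    have h5 : d + 1 ≤ 2 ^ d := Nat.lt_two_pow_self
    have h6 : 2 ^ (2 * d + 4) = 16 * (2 ^ d * 2 ^ d) := by ring
    have h7 : (d + 1) * (d + 1) ≤ 2 ^ d * 2 ^ d := Nat.mul_le_mul h5 h5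
    rw [h6]
    nlinarith
  calc k0 γ = sun (qq γ) d := rfl
    _ ≤ (2 * qq γ * (d + 1)) ^ (d + 1) := h1
    _ ≤ (2 ^ (3 * d + 2)) ^ (d + 1) := Nat.pow_le_pow_left h2 _
    _ = 2 ^ ((3 * d + 2) * (d + 1)) := by rw [← pow_mul]
    _ ≤ 2 ^ (2 ^ (2 * d + 4)) := Nat.pow_le_pow_right (by norm_num) h4

/-- All constants are at most a triple exponential in `γ`. -/
theorem rad_le (γ : ℕ) : 2 * rad γ + 12 * (γ + 2) + 1 ≤ 2 ^ (2 ^ (2 ^ (2 * γ + 7))) := by
  set d := dd γ with hd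
  have hd1 : d ≤ 2 ^ (2 * γ + 4) := dd_le γ
  have hk := k0_le γ
  rw [← hd] at hk
  set P := 2 ^ (2 ^ (2 * d + 4)) with hP
  have hdP : d + 1 ≤ P := by
    have h1 : d + 1 ≤ 2 ^ d := Nat.lt_two_pow_self
    have h2 : 2 ^ d ≤ P := by
      rw [hP]
      apply Nat.pow_le_pow_right (by norm_num)
      have : 2 * d + 4 < 2 ^ (2 * d + 4) := Nat.lt_two_pow_self
      omega
    omega
  have hγd : 2 * γ + 7 ≤ d := by rw [hd]; unfold dd; nlinarith [Nat.zero_le γ]
  have hγ4 : (2 * γ) ^ 4 ≤ P := by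
    have h1 : 2 * γ ≤ 2 ^ (2 * γ) := Nat.lt_two_pow_self.le
    calc (2 * γ) ^ 4 ≤ (2 ^ (2 * γ)) ^ 4 := Nat.pow_le_pow_left h1 4
      _ = 2 ^ (8 * γ) := by ring
      _ ≤ P := by
        rw [hP]
        apply Nat.pow_le_pow_right (by norm_num)
        have h2 : 2 * d + 4 < 2 ^ (2 * d + 4) := Nat.lt_two_pow_self
        have h3 : 2 ^ (2 * d + 4) = 16 * 2 ^ (2 * d) := by ring
        have h4 : 2 * d < 2 ^ (2 * d) := Nat.lt_two_pow_self
        omega
  have hkk : kk γ ≤ P + P * P := by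
    unfold kk
    have h1 : dd γ * k0 γ ≤ d * P := Nat.mul_le_mul_left _ hk
    have h2 : (d + 1) * P ≤ P * P := Nat.mul_le_mul_right _ hdP
    have h3 : 2 * γ ≤ P := by omega
    have h4 : (d + 1) * P = d * P + P := by ring
    omega
  have hP1 : 16 ≤ P := by
    rw [hP]
    calc 16 = 2 ^ (2 ^ 2) := by norm_num
      _ ≤ 2 ^ (2 ^ (2 * d + 4)) := by
        apply Nat.pow_le_pow_right (by norm_num)
        apply Nat.pow_le_pow_right (by norm_num)
        omega
  have hrad : 2 * rad γ + 12 * (γ + 2) + 1 ≤ P ^ 3 := by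
    unfold rad
    have h1 : 2 * (2 * kk γ + 2 * (2 * γ) ^ 4 + 4 * γ + 12) + 12 * (γ + 2) + 1
        ≤ 4 * (P + P * P) + 4 * P + 20 * P := by
      have : 20 * γ + 49 ≤ 20 * P := by omega
      omega
    have h2 : P ^ 3 = P * (P * P) := by ring
    rw [h2]
    nlinarith [Nat.mul_le_mul hP1 hP1, Nat.mul_le_mul_right (P * P) hP1]
  refine hrad.trans ?_
  calc P ^ 3 = 2 ^ (2 ^ (2 * d + 4) * 3) := by rw [hP, ← pow_mul]
    _ ≤ 2 ^ (2 ^ (2 * d + 6)) := by
        apply Nat.pow_le_pow_right (by norm_num)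
        have : 2 ^ (2 * d + 6) = 2 ^ (2 * d + 4) * 4 := by ring
        omega
    _ ≤ 2 ^ (2 ^ (2 ^ (2 * γ + 7))) := by
        apply Nat.pow_le_pow_right (by norm_num)
        apply Nat.pow_le_pow_right (by norm_num)
        have h1 : 2 ^ (2 * γ + 7) = 8 * 2 ^ (2 * γ + 4) := by ring
        have h2 : 1 ≤ 2 ^ (2 * γ + 4) := Nat.one_le_two_pow
        omega

/-- The sequence of levels. -/
def seqK (C γ : ℕ) : ℕ → ℕ
  | 0 => 2
  | j + 1 => 2 ^ (rad γ + 4 * (C + 6) * seqK C γ j)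

theorem seqK_le (C γ t : ℕ)
    (ht : 2 * rad γ + 12 * (C + 6) + 1 ≤ tower t) (j : ℕ) :
    rad γ + 4 * (C + 6) * seqK C γ j + (rad γ + 4 * (C + 6) + 1) ≤ tower (t + j) := by
  induction j with
  | zero =>
    simp only [seqK, Nat.add_zero]
    omega
  | succ j ih =>
    set R := rad γ + 4 * (C + 6) with hR
    set aj := rad γ + 4 * (C + 6) * seqK C γ j with haj
    have h1 : seqK C γ (j + 1) = 2 ^ aj := rfl
    rw [h1]
    have h2 : 1 ≤ 2 ^ aj := Nat.one_le_two_pow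
    have h3 : R + 1 + 1 ≤ 2 ^ (R + 1) := Nat.lt_two_pow_self
    have h4 : 2 * R + 2 ≤ 2 ^ (R + 1) := by
      have : R + 1 ≤ 2 ^ R := Nat.lt_two_pow_self
      rw [pow_succ]; omega
    calc rad γ + 4 * (C + 6) * 2 ^ aj + (R + 1)
        ≤ 2 ^ aj * (rad γ + 4 * (C + 6) + (R + 1)) := by nlinarith
      _ ≤ 2 ^ aj * 2 ^ (R + 1) := Nat.mul_le_mul_left _ (by omega)
      _ = 2 ^ (aj + (R + 1)) := (pow_add 2 aj (R + 1)).symm
      _ ≤ 2 ^ tower (t + j) := Nat.pow_le_pow_right (by norm_num) ih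
      _ = tower (t + (j + 1)) := rfl

theorem clog_le (C : ℕ) : Nat.clog 2 (C + 6) ≤ Nat.log 2 (C + 2) + 3 := by
  apply Nat.clog_le_of_le_pow
  have h1 : C + 2 < 2 ^ (Nat.log 2 (C + 2) + 1) := Nat.lt_pow_succ_log_self (by norm_num) _
  have h2 : 2 ^ (Nat.log 2 (C + 2) + 3) = 4 * 2 ^ (Nat.log 2 (C + 2) + 1) := by ring
  omega

theorem seqK_tower (C γ : ℕ) (hγ : γ = C + 4 + Nat.clog 2 (C + 6)) :
    seqK C γ (γ + 1) ≤ tower (C + 2 * Nat.log 2 (C + 2) + 17) := by
  set L := Nat.log 2 (C + 2) with hL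
  have hcl := clog_le C
  rw [← hL] at hcl
  have h1 : C + 2 < 2 ^ (L + 1) := Nat.lt_pow_succ_log_self (by norm_num) _
  have hs : 2 * γ + 7 ≤ tower (L + 6) := by
    have h2 := tower_pow (L + 6)
    have h3 : 2 ^ (L + 6) = 32 * 2 ^ (L + 1) := by ring
    have h4 : L + 1 < 2 ^ (L + 1) := Nat.lt_two_pow_self
    omega
  have ht : 2 * rad γ + 12 * (C + 6) + 1 ≤ tower (L + 9) := by
    have h2 := rad_le γ
    have h3 : 2 ^ (2 ^ (2 ^ (2 * γ + 7))) ≤ tower (L + 9) := by
      have e1 : tower (L + 9) = 2 ^ (2 ^ (2 ^ tower (L + 6))) := rfl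
      rw [e1]
      apply Nat.pow_le_pow_right (by norm_num)
      apply Nat.pow_le_pow_right (by norm_num)
      apply Nat.pow_le_pow_right (by norm_num)
      exact hs
    omega
  have h5 := seqK_le C γ (L + 9) ht γ
  have h6 : seqK C γ (γ + 1) = 2 ^ (rad γ + 4 * (C + 6) * seqK C γ γ) := rfl
  rw [h6]
  calc 2 ^ (rad γ + 4 * (C + 6) * seqK C γ γ) ≤ 2 ^ tower (L + 9 + γ) :=
        Nat.pow_le_pow_right (by norm_num) (by omega)
    _ = tower (L + 9 + γ + 1) := rfl
    _ ≤ tower (C + 2 * L + 17) := tower_mono (by omega)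

/-- Planar graphs with cycles of all lengths `3, ..., n` have more than `n + log n + C` edges when
`n` is at least a tower of height `C + 2 log (C + 2) + 17`. -/
theorem planar_bound (C n : ℕ) (hn : tower (C + 2 * Nat.log 2 (C + 2) + 17) ≤ n)
    {V : Type*} [Finite V] (G : SimpleGraph V) (hM : MacLane G)
    (hcyc : ∀ k, 3 ≤ k → k ≤ n → ∃ (v : V) (p : G.Walk v v), p.IsCycle ∧ p.length = k) :
    (n : ℝ) + Real.logb 2 n + C < G.edgeSet.ncard := by
  have : Fintype V := Fintype.ofFinite V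
  by_contra hcon
  push Not at hcon
  obtain ⟨m, a, b, l, r, hab, hD, hconn, hev⟩ := dual_of_maclane G hM
  obtain ⟨A, hF⟩ := fam_of_cycles G a b l r hab hD hconn hev n hcyc
  have hn16 : 4 ≤ n := by
    have h1 : 4 ≤ tower (C + 2 * Nat.log 2 (C + 2) + 17) := by
      have := tower_gt (C + 2 * Nat.log 2 (C + 2) + 17)
      omega
    omega
  have hcardE : G.edgeSet.ncard = Fintype.card G.edgeSet := by
    rw [Set.ncard_eq_toFinset_card', Set.toFinset_card]
  have hge : n ≤ Fintype.card G.edgeSet := by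
    have h1 := hF.card n (by omega) le_rfl
    have h2 := card_le_univ (supp l r (A n))
    omega
  have hE : 2 ^ (Fintype.card G.edgeSet - n) ≤ n * 2 ^ C := by
    rw [hcardE] at hcon
    have h1 : ((Fintype.card G.edgeSet - n : ℕ) : ℝ) ≤ Real.logb 2 n + C := by
      rw [Nat.cast_sub hge]; linarith
    have hnpos : (0 : ℝ) < n := by
      have : 0 < n := by omega
      exact_mod_cast this
    have h2 : (2 : ℝ) ^ ((Fintype.card G.edgeSet - n : ℕ) : ℝ) ≤ (2 : ℝ) ^ (Real.logb 2 n + C) :=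
      Real.rpow_le_rpow_of_exponent_le (by norm_num) h1
    rw [Real.rpow_natCast, Real.rpow_add (by norm_num), Real.rpow_logb (by norm_num)
      (by norm_num) hnpos, Real.rpow_natCast] at h2
    exact_mod_cast h2
  set γ := C + 4 + Nat.clog 2 (C + 6) with hγdef
  have hγ : 2 ^ (C + 4) * (C + 6) ≤ 2 ^ γ := by
    rw [hγdef, pow_add 2 (C + 4)]
    exact Nat.mul_le_mul_left _ (Nat.le_pow_clog (by norm_num) _)
  have hK : seqK C γ (γ + 1) ≤ n := (seqK_tower C γ hγdef).trans hn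
  refine chain_false hD hF C γ hE hγ (fun j => if j ≤ γ then seqK C γ j else n) ?_ ?_ ?_
  · simp [seqK]
  · simp
  · intro j hj
    rcases Nat.lt_or_ge j γ with h | h
    · have h1 : j + 1 ≤ γ := h
      simp only [hj, h1, if_true]
      exact le_rfl
    · have h1 : j = γ := le_antisymm hj h
      subst h1
      simp only [le_refl, if_true]
      rw [if_neg (by omega)]
      exact hK

end Pool.Agent.Helper86
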