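import Pool.Agent.Helper86.Core

/-!
Sparse graphs with many good colourings: all but boundedly many vertices are adjacent to both
vertices of a pair that almost all good colourings separate.
-/

namespace Pool.Agent.Helper86

open Finset

open scoped Classical

variable {Ψ : Type*} [Fintype Ψ]

/-- Block size used for a given density exponent. -/
def dd (γ : ℕ) : ℕ := 8 * γ ^ 2 + 2 * γ + 7

/-- Number of petals used for a given density exponent. -/
def qq (γ : ℕ) : ℕ := 2 ^ dd γ * (2 * γ + 5) + dd γ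

/-- Bound for the number of low degree exceptions. -/
def k0 (γ : ℕ) : ℕ := sun (qq γ) (dd γ)

/-- Bound for the number of all exceptions. -/
def kk (γ : ℕ) : ℕ := 2 * γ + k0 γ + dd γ * k0 γ

theorem star_lemma (adj : Ψ → Ψ → Prop) (hirr : ∀ f, ¬ adj f f) (γ : ℕ)
    (hgood : 2 ^ Fintype.card Ψ ≤ 2 ^ γ * numGood adj)
    (hN : Fintype.card Ψ * 2 ^ (2 * γ + 5) ≤ 2 ^ Fintype.card Ψ)
    (hK : ∀ u v w, u ≠ v → u ≠ w → v ≠ w →
      (univ.filter (fun f => adj f u ∧ adj f v ∧ adj f w)).card ≤ 2)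
    (B : Finset Ψ) (hd : ∀ f ∈ B, (insert f (nb adj f)).card ≤ dd γ) (hB : k0 γ ≤ B.card) :
    ∃ f ∈ B, ∃ w w', Sep adj γ w w' ∧ adj f w ∧ adj f w' := by
  obtain ⟨W, B', hB', hq, hW, hdis⟩ :=
    sunflower (qq γ) (dd γ) (fun f => insert f (nb adj f)) B hd hB
  have hqpos : 0 < qq γ := by unfold qq; positivity
  have hWcard : W.card ≤ dd γ := by
    obtain ⟨f, hf⟩ : B'.Nonempty := by rw [← card_pos]; omega
    exact (card_le_card (hW f hf)).trans (hd f (hB' hf))
  set B2 := B' \ W with hB2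
  have hB2card : 2 ^ dd γ * (2 * γ + 5) ≤ B2.card := by
    have h1 : B'.card ≤ B2.card + W.card := by
      have := Finset.le_card_sdiff W B'
      rw [← hB2] at this
      omega
    unfold qq at hq
    omega
  have hadj : ∀ f ∈ B2, ∀ w ∈ W, adj f w := by
    intro f hf w hw
    rw [hB2, mem_sdiff] at hf
    have h1 := hW f hf.1 hw
    rw [mem_insert] at h1
    rcases h1 with rfl | h1
    · exact absurd hw hf.2
    · simpa [nb] using h1
  have h5 : 5 ≤ B2.card := by
    have : 1 ≤ 2 ^ dd γ := Nat.one_le_two_pow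
    nlinarith [Nat.zero_le γ]
  have hcount := count_const adj hirr (dd γ) (2 * γ + 3) W B2
    (fun f hf => (mem_sdiff.mp hf).2)
    (fun f hf => hd f (hB' (mem_sdiff.mp hf).1))
    (fun f hf g hg hfg => hdis f (mem_sdiff.mp hf).1 g (mem_sdiff.mp hg).1 hfg)
    hB2card hN
  obtain ⟨f0, hf0⟩ : B2.Nonempty := by rw [← card_pos]; omega
  have hf0B : f0 ∈ B := hB' (mem_sdiff.mp hf0).1
  rcases Nat.lt_or_ge W.card 2 with hlt | hge
  · exfalso
    have hle1 : W.card ≤ 1 := by omega
    have hall : (univ.filter (fun A : Ψ → ZMod 2 => Good adj A ∧ ∃ b, ∀ w ∈ W, A w = b))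
        = univ.filter (fun A => Good adj A) := by
      ext A
      simp only [mem_filter, mem_univ, true_and, and_iff_left_iff_imp]
      intro _
      rcases W.eq_empty_or_nonempty with rfl | ⟨w, hw⟩
      · exact ⟨0, by simp⟩
      · exact ⟨A w, fun w' hw' => by
          rw [Finset.card_le_one.mp hle1 w' hw' w hw]⟩
    rw [hall] at hcount
    -- all pairs would be separated, in particular a vertex from itself
    have hsep : Sep adj γ f0 f0 := by
      have : numEq adj f0 f0 = (univ.filter (fun A => Good adj A)).card := by simp [numEq]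
      rw [Sep, this]
      exact hcount
    exact sep_ne adj γ hgood hsep rfl
  rcases Nat.lt_or_ge 2 W.card with hlt | hle
  · exfalso
    obtain ⟨u, hu, v, hv, w, hw, huv, huw, hvw⟩ := Finset.two_lt_card.mp hlt
    have h1 := hK u v w huv huw hvw
    have h2 : B2.card ≤ (univ.filter (fun f => adj f u ∧ adj f v ∧ adj f w)).card := by
      apply card_le_card
      intro f hf
      simp only [mem_filter, mem_univ, true_and]
      exact ⟨hadj f hf u hu, hadj f hf v hv, hadj f hf w hw⟩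
    omega
  · have h2 : W.card = 2 := le_antisymm hle hge
    obtain ⟨w, w', hne, rfl⟩ := Finset.card_eq_two.mp h2
    refine ⟨f0, hf0B, w, w', ?_, hadj f0 hf0 w (by simp), hadj f0 hf0 w' (by simp)⟩
    rw [Sep]
    convert hcount using 2
    rw [numEq]
    congr 1
    ext A
    simp only [mem_filter, mem_univ, true_and, mem_insert, mem_singleton, forall_eq_or_imp,
      forall_eq, and_congr_right_iff]
    intro _
    constructor
    · intro h; exact ⟨A w', h, rfl⟩
    · rintro ⟨b, h1, h2⟩; rw [h1, h2]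

theorem sep_symm (adj : Ψ → Ψ → Prop) (γ : ℕ) {w w' : Ψ} (h : Sep adj γ w w') :
    Sep adj γ w' w := by
  rw [Sep] at h ⊢
  convert h using 2
  rw [numEq, numEq]
  congr 1
  ext A
  simp only [mem_filter, mem_univ, true_and, eq_comm]

/-- Vertices adjacent to both ends of a separated pair. -/
noncomputable def rr (adj : Ψ → Ψ → Prop) (γ : ℕ) : Finset Ψ :=
  univ.filter (fun f => ∃ w w', Sep adj γ w w' ∧ adj f w ∧ adj f w')

theorem rr_card (adj : Ψ → Ψ → Prop) (hsymm : ∀ f g, adj f g → adj g f) (γ : ℕ)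
    (hgood : 2 ^ Fintype.card Ψ ≤ 2 ^ γ * numGood adj)
    (hK : ∀ u v w, u ≠ v → u ≠ w → v ≠ w →
      (univ.filter (fun f => adj f u ∧ adj f v ∧ adj f w)).card ≤ 2)
    (f : Ψ) (hfS : f ∉ hubs adj γ) :
    (rr adj γ ∩ nb adj f).card ≤ 2 * (hubs adj γ).card ^ 2 := by
  set S := hubs adj γ with hS
  set cn : Ψ × Ψ → Finset Ψ := fun p =>
    if p.1 ≠ p.2 then univ.filter (fun g => adj g f ∧ adj g p.1 ∧ adj g p.2) else ∅ with hcn
  have hsub2 : rr adj γ ∩ nb adj f ⊆ (S ×ˢ S).biUnion cn := by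
    intro g hg
    rw [mem_inter] at hg
    obtain ⟨hgR, hgf⟩ := hg
    simp only [rr, mem_filter, mem_univ, true_and] at hgR
    obtain ⟨w, w', hsep, h1, h2⟩ := hgR
    have hne := sep_ne adj γ hgood hsep
    have hsep' := sep_symm adj γ hsep
    rw [mem_biUnion]
    refine ⟨(w, w'), ?_, ?_⟩
    · rw [mem_product]
      simp only [hS, hubs, mem_filter, mem_univ, true_and]
      exact ⟨⟨w', hsep⟩, ⟨w, hsep'⟩⟩
    · simp only [hcn, ne_eq, hne, not_false_eq_true, if_true, mem_filter, mem_univ, true_and]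
      refine ⟨hsymm f g (by simpa [nb] using hgf), h1, h2⟩
  refine (card_le_card hsub2).trans ?_
  have h3 : ((S ×ˢ S).biUnion cn).card ≤ (S ×ˢ S).card * 2 := by
    refine Finset.card_biUnion_le_card_mul (S ×ˢ S) cn 2 ?_
    intro p hp
    rw [mem_product] at hp
    by_cases hpp : p.1 = p.2
    · simp [hcn, hpp]
    · simp only [hcn, ne_eq, hpp, not_false_eq_true, if_true]
      refine hK f p.1 p.2 ?_ ?_ hpp
      · intro h; rw [h] at hfS; exact hfS hp.1
      · intro h; rw [h] at hfS; exact hfS hp.2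
  rw [card_product] at h3
  refine h3.trans ?_
  nlinarith

theorem swap_sum (adj : Ψ → Ψ → Prop) (hsymm : ∀ f g, adj f g → adj g f) (L B : Finset Ψ) :
    ∑ f ∈ L, (B ∩ nb adj f).card = ∑ g ∈ B, (L ∩ nb adj g).card := by
  have e1 : ∀ (C : Finset Ψ) f, (C ∩ nb adj f).card = ∑ g ∈ C, if adj f g then 1 else 0 := by
    intro C f
    rw [Finset.sum_boole]
    simp only [Nat.cast_id]
    congr 1
    ext g
    simp [nb]
  simp only [e1]
  rw [Finset.sum_comm]
  refine Finset.sum_congr rfl (fun g _ => Finset.sum_congr rfl (fun f _ => ?_))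
  have : adj f g ↔ adj g f := ⟨hsymm _ _, hsymm _ _⟩
  simp only [this]

/-- Low degree vertices adjacent to both ends of no separated pair. -/
noncomputable def bb (adj : Ψ → Ψ → Prop) (γ : ℕ) : Finset Ψ :=
  univ.filter (fun f => (insert f (nb adj f)).card ≤ dd γ ∧ f ∉ rr adj γ)

/-- High degree vertices that are not hubs. -/
noncomputable def ll (adj : Ψ → Ψ → Prop) (γ : ℕ) : Finset Ψ :=
  univ.filter (fun f => dd γ < (insert f (nb adj f)).card ∧ f ∉ hubs adj γ)

theorem four_cases (adj : Ψ → Ψ → Prop) (γ : ℕ) (f : Ψ) :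
    f ∈ hubs adj γ ∨ f ∈ bb adj γ ∨ f ∈ ll adj γ ∨
      (f ∈ rr adj γ ∧ (insert f (nb adj f)).card ≤ dd γ) := by
  by_cases h1 : f ∈ hubs adj γ
  · exact Or.inl h1
  by_cases h2 : (insert f (nb adj f)).card ≤ dd γ
  · by_cases h3 : f ∈ rr adj γ
    · exact Or.inr (Or.inr (Or.inr ⟨h3, h2⟩))
    · exact Or.inr (Or.inl (by simp only [bb, mem_filter, mem_univ, true_and]; exact ⟨h2, h3⟩))
  · exact Or.inr (Or.inr (Or.inl (by
      simp only [ll, mem_filter, mem_univ, true_and]; exact ⟨by omega, h1⟩)))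

theorem ll_split (adj : Ψ → Ψ → Prop) (hsymm : ∀ f g, adj f g → adj g f) (γ : ℕ)
    (hgood : 2 ^ Fintype.card Ψ ≤ 2 ^ γ * numGood adj)
    (hK : ∀ u v w, u ≠ v → u ≠ w → v ≠ w →
      (univ.filter (fun f => adj f u ∧ adj f v ∧ adj f w)).card ≤ 2)
    (f : Ψ) (hf : f ∈ ll adj γ) :
    (nb adj f).card ≤ (hubs adj γ).card + (bb adj γ ∩ nb adj f).card
      + (ll adj γ ∩ nb adj f).card + 2 * (hubs adj γ).card ^ 2 := by
  have hfS : f ∉ hubs adj γ := (mem_filter.mp hf).2.2
  have hsub : nb adj f ⊆ ((hubs adj γ ∪ (bb adj γ ∩ nb adj f)) ∪ (ll adj γ ∩ nb adj f))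
      ∪ (rr adj γ ∩ nb adj f) := by
    intro g hg
    simp only [mem_union, mem_inter, hg, and_true]
    rcases four_cases adj γ g with h | h | h | h
    · exact Or.inl (Or.inl (Or.inl h))
    · exact Or.inl (Or.inl (Or.inr h))
    · exact Or.inl (Or.inr h)
    · exact Or.inr h.1
  have hRcard := rr_card adj hsymm γ hgood hK f hfS
  refine (card_le_card hsub).trans ((card_union_le _ _).trans ?_)
  have h1 := card_union_le (hubs adj γ ∪ (bb adj γ ∩ nb adj f)) (ll adj γ ∩ nb adj f)
  have h2 := card_union_le (hubs adj γ) (bb adj γ ∩ nb adj f)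
  omega

theorem ll_card (adj : Ψ → Ψ → Prop) (hsymm : ∀ f g, adj f g → adj g f) (γ : ℕ)
    (hgood : 2 ^ Fintype.card Ψ ≤ 2 ^ γ * numGood adj)
    (hK : ∀ u v w, u ≠ v → u ≠ w → v ≠ w →
      (univ.filter (fun f => adj f u ∧ adj f v ∧ adj f w)).card ≤ 2)
    (hE : ∀ L : Finset Ψ, ∑ f ∈ L, (L ∩ nb adj f).card ≤ 6 * L.card)
    (hB : (bb adj γ).card ≤ k0 γ) :
    (ll adj γ).card ≤ dd γ * k0 γ := by
  have hScard : (hubs adj γ).card ≤ 2 * γ := hubs_card adj γ hgood
  have hdeg : ∀ f ∈ ll adj γ, dd γ ≤ (nb adj f).card := by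
    intro f hf
    have h1 := (mem_filter.mp hf).2.1
    have h2 := card_insert_le f (nb adj f)
    omega
  have hBL : ∑ f ∈ ll adj γ, (bb adj γ ∩ nb adj f).card ≤ (bb adj γ).card * dd γ := by
    rw [swap_sum adj hsymm]
    calc ∑ g ∈ bb adj γ, (ll adj γ ∩ nb adj g).card ≤ ∑ g ∈ bb adj γ, dd γ := by
          apply Finset.sum_le_sum
          intro g hg
          have h1 := (mem_filter.mp hg).2.1
          exact (card_le_card (inter_subset_right)).trans
            ((card_le_card (subset_insert g (nb adj g))).trans h1)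
      _ = (bb adj γ).card * dd γ := by rw [sum_const, smul_eq_mul]
  have h1 : (ll adj γ).card * dd γ ≤ ∑ f ∈ ll adj γ, (nb adj f).card := by
    rw [← smul_eq_mul]
    exact Finset.card_nsmul_le_sum _ _ _ hdeg
  have h2 : ∑ f ∈ ll adj γ, (nb adj f).card
      ≤ (ll adj γ).card * (hubs adj γ).card + ∑ f ∈ ll adj γ, (bb adj γ ∩ nb adj f).card
        + ∑ f ∈ ll adj γ, (ll adj γ ∩ nb adj f).card
        + (ll adj γ).card * (2 * (hubs adj γ).card ^ 2) := by
    calc ∑ f ∈ ll adj γ, (nb adj f).card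
        ≤ ∑ f ∈ ll adj γ, ((hubs adj γ).card + (bb adj γ ∩ nb adj f).card
          + (ll adj γ ∩ nb adj f).card + 2 * (hubs adj γ).card ^ 2) :=
          Finset.sum_le_sum (ll_split adj hsymm γ hgood hK)
      _ = _ := by
          rw [sum_add_distrib, sum_add_distrib, sum_add_distrib, sum_const, sum_const,
            smul_eq_mul, smul_eq_mul]
  have h3 := hE (ll adj γ)
  have h4 : (bb adj γ).card * dd γ ≤ k0 γ * dd γ := Nat.mul_le_mul_right _ hB
  have h5 : (hubs adj γ).card + 2 * (hubs adj γ).card ^ 2 + 7 ≤ dd γ := by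
    unfold dd
    nlinarith [hScard, Nat.zero_le (hubs adj γ).card, Nat.zero_le γ]
  have h6 := Nat.mul_le_mul_left (ll adj γ).card h5
  have h7 : (ll adj γ).card ≤ k0 γ * dd γ := by
    have e : (ll adj γ).card * ((hubs adj γ).card + 2 * (hubs adj γ).card ^ 2 + 7)
        = (ll adj γ).card * (hubs adj γ).card + (ll adj γ).card * (2 * (hubs adj γ).card ^ 2)
          + 7 * (ll adj γ).card := by ring
    rw [e] at h6
    omega
  rw [mul_comm]
  exact h7

/-- The structure of sparse graphs with many good colourings. -/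
theorem hub_lemma (adj : Ψ → Ψ → Prop) (hsymm : ∀ f g, adj f g → adj g f)
    (hirr : ∀ f, ¬ adj f f) (γ : ℕ)
    (hgood : 2 ^ Fintype.card Ψ ≤ 2 ^ γ * numGood adj)
    (hN : Fintype.card Ψ * 2 ^ (2 * γ + 5) ≤ 2 ^ Fintype.card Ψ)
    (hK : ∀ u v w, u ≠ v → u ≠ w → v ≠ w →
      (univ.filter (fun f => adj f u ∧ adj f v ∧ adj f w)).card ≤ 2)
    (hE : ∀ L : Finset Ψ, ∑ f ∈ L, (L ∩ nb adj f).card ≤ 6 * L.card) :
    ∃ X : Finset Ψ, X.card ≤ kk γ ∧ hubs adj γ ⊆ X ∧
      ∀ f, f ∉ X → ∃ w w', Sep adj γ w w' ∧ adj f w ∧ adj f w' := by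
  have hBscard : (bb adj γ).card ≤ k0 γ := by
    rcases le_total (bb adj γ).card (k0 γ) with h | hcon
    · exact h
    · exfalso
      have hd : ∀ f ∈ bb adj γ, (insert f (nb adj f)).card ≤ dd γ := by
        intro f hf
        rw [bb, mem_filter] at hf
        exact hf.2.1
      obtain ⟨f, hf, w, w', h⟩ := star_lemma adj hirr γ hgood hN hK (bb adj γ) hd hcon
      rw [bb, mem_filter] at hf
      refine hf.2.2 ?_
      rw [rr, mem_filter]
      exact ⟨mem_univ _, w, w', h⟩
  have hScard : (hubs adj γ).card ≤ 2 * γ := hubs_card adj γ hgood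
  have hLcard := ll_card adj hsymm γ hgood hK hE hBscard
  refine ⟨hubs adj γ ∪ bb adj γ ∪ ll adj γ, ?_, ?_, ?_⟩
  · refine (card_union_le _ _).trans ?_
    have := card_union_le (hubs adj γ) (bb adj γ)
    unfold kk
    omega
  · intro w hw
    exact mem_union_left _ (mem_union_left _ hw)
  · intro f hf
    simp only [mem_union, not_or] at hf
    obtain ⟨⟨hf1, hf2⟩, hf3⟩ := hf
    rcases four_cases adj γ f with h | h | h | h
    · exact absurd h hf1
    · exact absurd h hf2
    · exact absurd h hf3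
    · have h2 := h.1
      rw [rr, mem_filter] at h2
      exact h2.2

end Pool.Agent.Helper86
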