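import Pool.Agent.Helper86.Minor

/-!
Families of minimal cuts of all sizes `3, ..., n` in a multigraph with few edges, and the
chain of contractions attached to them.
-/

namespace Pool.Agent.Helper86

open Finset

open scoped Classical

variable {E Φ : Type*} [Fintype E]

/-- Edges whose ends get different colours. -/
noncomputable def supp (l r : E → Φ) (A : Φ → ZMod 2) : Finset E :=
  univ.filter (fun e => A (l e) ≠ A (r e))

theorem mem_supp (l r : E → Φ) (A : Φ → ZMod 2) (e : E) :
    e ∈ supp l r A ↔ A (l e) ≠ A (r e) := by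
  rw [supp, mem_filter]
  exact ⟨fun h => h.2, fun h => ⟨mem_univ _, h⟩⟩

/-- A connected multigraph with a minimal cut of every size from `3` to `n`. -/
structure Fam (l r : E → Φ) (n : ℕ) (A : ℕ → Φ → ZMod 2) : Prop where
  conn : ∀ B, supp l r B = ∅ → ∀ x y, B x = B y
  card : ∀ k, 3 ≤ k → k ≤ n → (supp l r (A k)).card = k
  min : ∀ k, 3 ≤ k → k ≤ n → ∀ B, supp l r B ⊆ supp l r (A k) →
    supp l r B = ∅ ∨ supp l r B = supp l r (A k)

theorem supp_add_of_eq {l r : E → Φ} {A B : Φ → ZMod 2} (h : supp l r A = supp l r B) :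
    supp l r (A + B) = ∅ := by
  ext e
  have h1 : e ∈ supp l r A ↔ e ∈ supp l r B := by rw [h]
  rw [mem_supp, mem_supp] at h1
  rw [mem_supp]
  simp only [Pi.add_apply, notMem_empty, iff_false, not_not]
  have key : ∀ a b c d : ZMod 2, (a ≠ b ↔ c ≠ d) → a + c = b + d := by decide
  exact key _ _ _ _ h1

theorem supp_add_subset {l r : E → Φ} {A B : Φ → ZMod 2} {H : Finset E}
    (hA : supp l r A ⊆ H) (hB : supp l r B ⊆ H) : supp l r (A + B) ⊆ H := by
  intro e he
  rw [mem_supp] at he
  by_contra hcon
  have h1 : e ∉ supp l r A := fun h => hcon (hA h)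
  have h2 : e ∉ supp l r B := fun h => hcon (hB h)
  rw [mem_supp, not_not] at h1 h2
  apply he
  simp only [Pi.add_apply, h1, h2]

theorem supp_const (l r : E → Φ) (c : ZMod 2) : supp l r (fun _ => c) = ∅ := by
  ext e; simp [mem_supp]

theorem supp_add_const (l r : E → Φ) (A : Φ → ZMod 2) (c : ZMod 2) :
    supp l r (fun x => A x + c) = supp l r A := by
  ext e; simp [mem_supp]

variable [Fintype Φ]

/-- Number of classes of a level. -/
noncomputable def nH (l r : E → Φ) (H : Finset E) : ℕ := Fintype.card (Quotient (lev l r H))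

omit [Fintype E] [Fintype Φ] in
theorem mk_eq_iff (l r : E → Φ) (H : Finset E) (x y : Φ) :
    Quotient.mk (lev l r H) x = Quotient.mk (lev l r H) y ↔ (lev l r H).r x y :=
  ⟨fun h => Quotient.exact h, fun h => Quotient.sound h⟩

omit [Fintype Φ] in
theorem lev_supp {l r : E → Φ} {H : Finset E} {A : Φ → ZMod 2} (hA : supp l r A ⊆ H) {x y : Φ}
    (h : (lev l r H).r x y) : A x = A y := by
  refine lev_const l r H A ?_ h
  intro e he
  by_contra hcon
  exact he (hA ((mem_supp l r A e).mpr hcon))

theorem card_level (l r : E → Φ) (H : Finset E) :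
    (univ.filter (fun A : Φ → ZMod 2 => supp l r A ⊆ H)).card = 2 ^ nH l r H := by
  rw [nH, ← card_col, ← Finset.card_univ]
  symm
  apply Finset.card_bij (fun (B : Quotient (lev l r H) → ZMod 2) _ =>
    (fun x => B (Quotient.mk (lev l r H) x) : Φ → ZMod 2))
  · intro B _
    rw [mem_filter]
    refine ⟨mem_univ _, fun e he => ?_⟩
    rw [mem_supp] at he
    by_contra hcon
    apply he
    rw [(mk_eq_iff l r H _ _).mpr (lev_edge l r H e hcon)]
  · intro B _ B' _ h
    funext q
    induction q using Quotient.inductionOn with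
    | _ x => exact congrFun h x
  · intro A hA
    have hA' := (mem_filter.mp hA).2
    refine ⟨Quotient.lift A (fun x y h => lev_supp hA' h), mem_univ _, ?_⟩
    funext x
    rfl

variable {l r : E → Φ} {n : ℕ} {A : ℕ → Φ → ZMod 2}

theorem Fam.count (hF : Fam l r n A) (H : Finset E) :
    (n - 2) * 2 ^ nH l r H ≤ 2 ^ Fintype.card Φ * (H.card + 1) := by
  rw [← card_level]
  have h1 : ((Icc 3 n) ×ˢ (univ.filter (fun A : Φ → ZMod 2 => supp l r A ⊆ H))).card
      ≤ ((univ : Finset (Φ → ZMod 2)) ×ˢ (range (H.card + 1))).card := by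
    apply Finset.card_le_card_of_injOn
      (fun p => (A p.1 + p.2, (supp l r (A p.1) ∩ H).card))
    · intro p hp
      simp only [coe_product, coe_univ, coe_range, Set.mem_prod, Set.mem_univ, true_and,
        Set.mem_Iio]
      exact Nat.lt_succ_of_le (card_le_card inter_subset_right)
    · rintro ⟨k, Y⟩ hp ⟨k', Y'⟩ hp' h
      simp only [coe_product, Set.mem_prod, mem_coe, mem_Icc, mem_filter, mem_univ,
        true_and] at hp hp'
      simp only [Prod.mk.injEq] at h
      obtain ⟨h1, h2⟩ := h
      have hout : ∀ (k : ℕ) (Y : Φ → ZMod 2), supp l r Y ⊆ H →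
          supp l r (A k + Y) \ H = supp l r (A k) \ H := by
        intro k Y hY
        ext e
        simp only [mem_sdiff, mem_supp, Pi.add_apply]
        refine and_congr_left (fun he => ?_)
        have : e ∉ supp l r Y := fun h => he (hY h)
        rw [mem_supp, not_not] at this
        rw [this]
        simp
      have h3 := hout k Y hp.2
      have h4 := hout k' Y' hp'.2
      rw [h1] at h3
      have h5 : (supp l r (A k) \ H).card = (supp l r (A k') \ H).card := by rw [← h3, ← h4]
      have h6 := Finset.card_sdiff_add_card_inter (supp l r (A k)) H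
      have h7 := Finset.card_sdiff_add_card_inter (supp l r (A k')) H
      rw [hF.card k hp.1.1 hp.1.2] at h6
      rw [hF.card k' hp'.1.1 hp'.1.2] at h7
      have hkk : k = k' := by omega
      subst hkk
      have : Y = Y' := add_left_cancel h1
      rw [this]
  rw [card_product, card_product, Nat.card_Icc, card_univ, card_col, card_range] at h1
  have : n + 1 - 3 = n - 2 := by omega
  rwa [this] at h1

theorem Fam.dim (hF : Fam l r n A) (hn : 3 ≤ n) :
    2 ^ Fintype.card Φ ≤ 4 * 2 ^ (Fintype.card E - n) := by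
  rw [← card_col, ← Finset.card_univ]
  have h1 := Finset.card_le_mul_card_image_of_maps_to (s := (univ : Finset (Φ → ZMod 2)))
    (t := (univ \ supp l r (A n)).powerset) (f := fun B => supp l r B \ supp l r (A n))
    (fun B _ => by
      rw [mem_powerset]
      exact sdiff_subset_sdiff (subset_univ _) (Subset.refl _)) 4 (by
    intro T _
    rcases (univ.filter (fun B => supp l r B \ supp l r (A n) = T)).eq_empty_or_nonempty with
      h0 | ⟨B0, hB0⟩
    · rw [h0]; simp
    · have hsub : univ.filter (fun B => supp l r B \ supp l r (A n) = T)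
          ⊆ {B0, B0 + (fun _ => 1), B0 + A n, B0 + A n + (fun _ => 1)} := by
        intro B hB
        have e1 := (mem_filter.mp hB).2
        have e2 := (mem_filter.mp hB0).2
        have hs : supp l r (B + B0) ⊆ supp l r (A n) := by
          intro e he
          by_contra hcon
          have h3 : e ∈ supp l r B ↔ e ∈ supp l r B0 := by
            constructor
            · intro h
              have : e ∈ supp l r B \ supp l r (A n) := mem_sdiff.mpr ⟨h, hcon⟩
              rw [e1, ← e2] at this
              exact (mem_sdiff.mp this).1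
            · intro h
              have : e ∈ supp l r B0 \ supp l r (A n) := mem_sdiff.mpr ⟨h, hcon⟩
              rw [e2, ← e1] at this
              exact (mem_sdiff.mp this).1
          rw [mem_supp] at he
          rw [mem_supp, mem_supp] at h3
          apply he
          simp only [Pi.add_apply]
          have key : ∀ a b c d : ZMod 2, (a ≠ b ↔ c ≠ d) → a + c = b + d := by decide
          exact key _ _ _ _ h3
        have hBB : ∀ D : Φ → ZMod 2, (∀ x y, D x = D y) → D = 0 ∨ D = (fun _ => 1) := by
          intro D hD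
          by_cases hne : Nonempty Φ
          · obtain ⟨x0⟩ := hne
            rcases z2_cases (D x0) with h | h
            · left; funext x; rw [hD x x0, h]; rfl
            · right; funext x; rw [hD x x0, h]
          · left; funext x; exact absurd ⟨x⟩ hne
        have hBeq : B = B0 + (B + B0) := by
          funext x
          simp only [Pi.add_apply]
          have key : ∀ a b : ZMod 2, a = b + (a + b) := by decide
          exact key _ _
        rcases hF.min n hn le_rfl _ hs with h4 | h4
        · rcases hBB _ (hF.conn _ h4) with h5 | h5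
          · rw [hBeq, h5]; simp
          · rw [hBeq, h5]; simp
        · have h5 := hF.conn _ (supp_add_of_eq h4)
          have hBeq2 : B = B0 + A n + (B + B0 + A n) := by
            funext x
            simp only [Pi.add_apply]
            have key : ∀ a b c : ZMod 2, a = b + c + (a + b + c) := by decide
            exact key _ _ _
          rcases hBB _ h5 with h6 | h6
          · rw [hBeq2, h6]; simp
          · rw [hBeq2, h6]; simp
      exact (card_le_card hsub).trans card_le_four)
  rw [card_powerset, card_sdiff_of_subset (subset_univ _), card_univ, hF.card n hn le_rfl] at h1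
  exact h1

/-! ### Good colourings of a level -/

/-- Adjacency of the classes of a level. -/
def ladj (l r : E → Φ) (H : Finset E) : Quotient (lev l r H) → Quotient (lev l r H) → Prop :=
  dadj (fun e => Quotient.mk (lev l r H) (l e)) (fun e => Quotient.mk (lev l r H) (r e))

omit [Fintype Φ] in
theorem Fam.good (hF : Fam l r n A) (H : Finset E) (k : ℕ) (h3 : 3 ≤ k) (hk : k ≤ n)
    (B : Quotient (lev l r H) → ZMod 2)
    (hB : supp l r (fun x => B (Quotient.mk (lev l r H) x)) = supp l r (A k)) :
    Good (ladj l r H) B := by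
  intro f hg
  obtain ⟨g, hgf, hgB⟩ := hg
  by_contra hcon
  push Not at hcon
  set B' : Φ → ZMod 2 := fun x => B (Quotient.mk (lev l r H) x) with hB'
  set F : Φ → ZMod 2 := fun x => if Quotient.mk (lev l r H) x = f then 1 else 0 with hFdef
  obtain ⟨x, hx⟩ : ∃ x, Quotient.mk (lev l r H) x = f := Quotient.exists_rep f
  obtain ⟨y, hy⟩ : ∃ y, Quotient.mk (lev l r H) y = g := Quotient.exists_rep g
  have hFx : F x = 1 := by simp [hFdef, hx]
  have hFy : F y = 0 := by simp [hFdef, hy, hgf]
  have hBx : B' x = B f := by simp [hB', hx]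
  have hBy : B' y = B f := by simp [hB', hy, hgB]
  have hsub : supp l r F ⊆ supp l r B' := by
    intro e he
    rw [mem_supp] at he ⊢
    simp only [hFdef] at he
    by_cases h1 : Quotient.mk (lev l r H) (l e) = f
    · by_cases h2 : Quotient.mk (lev l r H) (r e) = f
      · simp [h1, h2] at he
      · have := hcon (Quotient.mk (lev l r H) (r e)) ⟨fun h => h2 h.symm, e, Or.inl ⟨h1, rfl⟩⟩
        simp only [hB', h1]
        exact fun h => this h.symm
    · by_cases h2 : Quotient.mk (lev l r H) (r e) = f
      · have := hcon (Quotient.mk (lev l r H) (l e)) ⟨fun h => h1 h.symm, e, Or.inr ⟨rfl, h2⟩⟩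
        simp only [hB', h2]
        exact this
      · simp [h1, h2] at he
  rw [hB] at hsub
  rcases hF.min k h3 hk F hsub with h0 | h0
  · have := hF.conn F h0 x y
    rw [hFx, hFy] at this
    exact one_ne_zero this
  · rw [← hB] at h0
    have h1 := hF.conn _ (supp_add_of_eq h0) x y
    simp only [Pi.add_apply, hFx, hFy, hBx, hBy] at h1
    have key : ∀ b : ZMod 2, 1 + b ≠ 0 + b := by decide
    exact key _ h1

/-- The union of the cuts of sizes `3, ..., k`. -/
noncomputable def uu (l r : E → Φ) (A : ℕ → Φ → ZMod 2) (k : ℕ) : Finset E :=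
  (Icc 3 k).biUnion (fun j => supp l r (A j))

omit [Fintype Φ] in
theorem supp_subset_uu {j k : ℕ} (h3 : 3 ≤ j) (hj : j ≤ k) : supp l r (A j) ⊆ uu l r A k :=
  Finset.subset_biUnion_of_mem (fun j => supp l r (A j)) (mem_Icc.mpr ⟨h3, hj⟩)

omit [Fintype Φ] in
theorem uu_mono {j k : ℕ} (h : j ≤ k) : uu l r A j ⊆ uu l r A k :=
  Finset.biUnion_subset_biUnion_of_subset_left _ (Icc_subset_Icc_right h)

omit [Fintype Φ] in
theorem uu_two : uu l r A 2 = ∅ := by
  rw [uu]
  have : Icc 3 2 = (∅ : Finset ℕ) := by decide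
  rw [this, biUnion_empty]

omit [Fintype Φ] in
theorem uu_succ {k : ℕ} (hk : 2 ≤ k) : uu l r A (k + 1) = uu l r A k ∪ supp l r (A (k + 1)) := by
  rw [uu, uu]
  have : Icc 3 (k + 1) = insert (k + 1) (Icc 3 k) := by
    ext j; simp only [mem_Icc, mem_insert]; omega
  rw [this, biUnion_insert, union_comm]

theorem numGood_eq {Ψ : Type*} [Fintype Ψ] [DecidableEq Ψ] (adj : Ψ → Ψ → Prop)
    [DecidablePred (Good adj)] :
    numGood adj = (univ.filter (fun A => Good adj A)).card := by
  rw [numGood]
  rw [← Set.ncard_coe_finset, ← Set.ncard_coe_finset]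
  congr 1
  ext A
  simp

theorem Fam.numGood (hF : Fam l r n A) (k : ℕ) (hk : k ≤ n) :
    2 * (k - 2) ≤ numGood (ladj l r (uu l r A k)) := by
  set H := uu l r A k with hH
  have hlift : ∀ j, 3 ≤ j → j ≤ k → ∃ B : Quotient (lev l r H) → ZMod 2,
      ∀ x, B (Quotient.mk (lev l r H) x) = A j x := by
    intro j h3 hj
    exact ⟨Quotient.lift (A j) (fun x y h => lev_supp (supp_subset_uu h3 hj) h), fun x => rfl⟩
  choose! B hB using hlift
  have h1 : ((Icc 3 k) ×ˢ (univ : Finset (ZMod 2))).card
      ≤ (univ.filter (fun B => Good (ladj l r H) B)).card := by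
    apply Finset.card_le_card_of_injOn (fun p => (fun q => B p.1 q + p.2))
    · rintro ⟨j, c⟩ hp
      simp only [coe_product, Set.mem_prod, mem_coe, mem_Icc, mem_univ, and_true] at hp
      simp only [coe_filter, mem_univ, true_and, Set.mem_ofPred_eq]
      refine hF.good H j hp.1 (hp.2.trans hk) _ ?_
      have : (fun x => B j (Quotient.mk (lev l r H) x) + c) = (fun x => A j x + c) := by
        funext x; rw [hB j hp.1 hp.2]
      rw [this, supp_add_const]
    · rintro ⟨j, c⟩ hp ⟨j', c'⟩ hp' h
      simp only [coe_product, Set.mem_prod, mem_coe, mem_Icc, mem_univ, and_true] at hp hp'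
      have h2 : ∀ x, A j x + c = A j' x + c' := by
        intro x
        have := congrFun h (Quotient.mk (lev l r H) x)
        simp only at this
        rwa [hB j hp.1 hp.2, hB j' hp'.1 hp'.2] at this
      have h3 : supp l r (A j) = supp l r (A j') := by
        rw [← supp_add_const l r (A j) c, ← supp_add_const l r (A j') c']
        congr 1
        funext x
        exact h2 x
      have hjj : j = j' := by
        rw [← hF.card j hp.1 (hp.2.trans hk), ← hF.card j' hp'.1 (hp'.2.trans hk), h3]
      subst hjj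
      have hne : (supp l r (A j)).Nonempty := by
        rw [← card_pos, hF.card j hp.1 (hp.2.trans hk)]; omega
      obtain ⟨e, _⟩ := hne
      have := add_left_cancel (h2 (l e))
      rw [this]
  rw [card_product, Nat.card_Icc, card_univ, ZMod.card] at h1
  rw [numGood_eq]
  have : k + 1 - 3 = k - 2 := by omega
  rw [this] at h1
  omega

theorem nH_mono (l r : E → Φ) {H K : Finset E} (h : H ⊆ K) : 2 ^ nH l r H ≤ 2 ^ nH l r K := by
  rw [← card_level, ← card_level]
  apply card_le_card
  intro B hB
  rw [mem_filter] at hB ⊢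
  exact ⟨hB.1, hB.2.trans h⟩

theorem nH_double (l r : E → Φ) (H : Finset E) (B : Φ → ZMod 2) (hB : ¬ supp l r B ⊆ H) :
    2 * 2 ^ nH l r H ≤ 2 ^ nH l r (H ∪ supp l r B) := by
  rw [← card_level, ← card_level]
  set C := univ.filter (fun A : Φ → ZMod 2 => supp l r A ⊆ H) with hC
  have hdis : Disjoint C (C.image (fun D => D + B)) := by
    rw [Finset.disjoint_left]
    intro D hD hD'
    rw [mem_image] at hD'
    obtain ⟨D', hD', rfl⟩ := hD'
    apply hB
    have h1 := (mem_filter.mp hD).2
    have h2 := (mem_filter.mp hD').2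
    have h3 := supp_add_subset h2 h1
    have h4 : D' + (D' + B) = B := by
      funext x
      simp only [Pi.add_apply]
      have key : ∀ a b : ZMod 2, a + (a + b) = b := by decide
      exact key _ _
    rwa [h4] at h3
  have hsub : C ∪ C.image (fun D => D + B)
      ⊆ univ.filter (fun A : Φ → ZMod 2 => supp l r A ⊆ H ∪ supp l r B) := by
    intro D hD
    rw [mem_filter]
    refine ⟨mem_univ _, ?_⟩
    rcases mem_union.mp hD with h | h
    · exact ((mem_filter.mp h).2).trans subset_union_left
    · obtain ⟨D', hD', rfl⟩ := mem_image.mp h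
      exact supp_add_subset (((mem_filter.mp hD').2).trans subset_union_left) subset_union_right
  have h1 := card_le_card hsub
  rw [card_union_of_disjoint hdis, card_image_of_injective _ (add_left_injective B)] at h1
  omega

/-- One step of the chain of levels. -/
theorem Fam.step (hF : Fam l r n A) (k : ℕ) (h2 : 2 ≤ k) (hk : k + 1 ≤ n) :
    uu l r A (k + 1) = uu l r A k ∨
      (2 * 2 ^ nH l r (uu l r A k) ≤ 2 ^ nH l r (uu l r A (k + 1)) ∧
        (uu l r A (k + 1)).card ≤ (uu l r A k).card + (k + 1)) := by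
  rw [uu_succ h2]
  by_cases h : supp l r (A (k + 1)) ⊆ uu l r A k
  · left; exact union_eq_left.mpr h
  · right
    refine ⟨nH_double l r _ _ h, (card_union_le _ _).trans ?_⟩
    rw [hF.card (k + 1) (by omega) hk]

omit [Fintype E] in
theorem Fam.numGood_le (l r : E → Φ) (H : Finset E) : Helper86.numGood (ladj l r H) ≤ 2 ^ nH l r H := by
  rw [numGood_eq, nH, ← card_col, ← Finset.card_univ]
  exact card_le_card (filter_subset _ _)

theorem Fam.chain0 (hF : Fam l r n A) : ∀ k, 2 ≤ k → k ≤ n →
    (uu l r A k).card + 1 ≤ 4 * 2 ^ nH l r (uu l r A k) := by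
  intro k h2
  induction k, h2 using Nat.le_induction with
  | base =>
    intro _
    rw [uu_two]
    have : 1 ≤ 2 ^ nH l r (∅ : Finset E) := Nat.one_le_two_pow
    simp only [card_empty]
    omega
  | succ k h2 ih =>
    intro hk
    have h1 := ih (by omega)
    rcases hF.step k h2 hk with h | ⟨h3, h4⟩
    · rw [h]; exact h1
    · have h5 := (hF.numGood (k + 1) hk).trans (Fam.numGood_le l r (uu l r A (k + 1)))
      omega

theorem Fam.chain (hF : Fam l r n A) : ∀ i k, 2 ≤ k → k ≤ n →
    2 ^ i * ((uu l r A k).card + 1) ≤ 4 * 2 ^ nH l r (uu l r A k) + 2 ^ i * i * k := by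
  intro i
  induction i with
  | zero =>
    intro k h2 hk
    have := hF.chain0 k h2 hk
    simpa using this
  | succ i ihi =>
    intro k h2
    induction k, h2 using Nat.le_induction with
    | base =>
      intro _
      rw [uu_two]
      simp only [card_empty, zero_add, mul_one]
      have h1 : 1 ≤ (i + 1) * 2 := by omega
      have h2 := Nat.mul_le_mul_left (2 ^ (i + 1)) h1
      rw [mul_one] at h2
      calc 2 ^ (i + 1) ≤ 2 ^ (i + 1) * ((i + 1) * 2) := h2
        _ = 2 ^ (i + 1) * (i + 1) * 2 := by ring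
        _ ≤ _ := Nat.le_add_left _ _
    | succ k h2 ihk =>
      intro hk
      rcases hF.step k h2 hk with h | ⟨h3, h4⟩
      · rw [h]
        refine (ihk (by omega)).trans ?_
        have : 2 ^ (i + 1) * (i + 1) * k ≤ 2 ^ (i + 1) * (i + 1) * (k + 1) :=
          Nat.mul_le_mul_left _ (Nat.le_succ k)
        omega
      · have h5 := ihi k h2 (by omega)
        have h6 : 2 ^ i * i * k ≤ 2 ^ i * i * (k + 1) := Nat.mul_le_mul_left _ (Nat.le_succ k)
        calc 2 ^ (i + 1) * ((uu l r A (k + 1)).card + 1)
            ≤ 2 ^ (i + 1) * ((uu l r A k).card + (k + 1) + 1) :=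
              Nat.mul_le_mul_left _ (by omega)
          _ = 2 * (2 ^ i * ((uu l r A k).card + 1)) + 2 ^ (i + 1) * (k + 1) := by ring
          _ ≤ 2 * (4 * 2 ^ nH l r (uu l r A k) + 2 ^ i * i * (k + 1)) + 2 ^ (i + 1) * (k + 1) := by
              omega
          _ = 4 * (2 * 2 ^ nH l r (uu l r A k)) + 2 ^ (i + 1) * (i + 1) * (k + 1) := by ring
          _ ≤ _ := by omega

/-- If the number of edges is at most `n + log n + C`, every level is efficient. -/
theorem Fam.bounds (hF : Fam l r n A) (C : ℕ) (hn : 4 ≤ n)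
    (hE : 2 ^ (Fintype.card E - n) ≤ n * 2 ^ C) (k : ℕ) (h2 : 2 ≤ k) (hk : k ≤ n) :
    (uu l r A k).card + 1 ≤ 2 * (C + 6) * k ∧
      2 ^ nH l r (uu l r A k) ≤ 2 ^ (C + 4) * (C + 6) * k := by
  set S := (uu l r A k).card with hS
  set M := 2 ^ nH l r (uu l r A k) with hM
  have h1 : M ≤ 2 ^ (C + 3) * (S + 1) := by
    have h2 := hF.count (uu l r A k)
    have h3 := hF.dim (by omega)
    have h4 : (n - 2) * M ≤ (4 * (n * 2 ^ C)) * (S + 1) :=
      h2.trans (Nat.mul_le_mul_right _ (h3.trans (Nat.mul_le_mul_left _ hE)))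
    have h5 : n ≤ 2 * (n - 2) := by omega
    have h6 : (n - 2) * M ≤ (n - 2) * (2 ^ (C + 3) * (S + 1)) := by
      calc (n - 2) * M ≤ (4 * (n * 2 ^ C)) * (S + 1) := h4
        _ = n * (4 * 2 ^ C * (S + 1)) := by ring
        _ ≤ (2 * (n - 2)) * (4 * 2 ^ C * (S + 1)) := Nat.mul_le_mul_right _ h5
        _ = (n - 2) * (2 ^ (C + 3) * (S + 1)) := by ring
    exact Nat.le_of_mul_le_mul_left h6 (by omega)
  have h3 := hF.chain (C + 6) k h2 hk
  rw [← hS, ← hM] at h3
  have h4 : S + 1 ≤ 2 * (C + 6) * k := by
    have h5 : 2 ^ (C + 6) * (S + 1) ≤ 2 ^ (C + 5) * (S + 1) + 2 ^ (C + 6) * (C + 6) * k := by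
      have : 4 * M ≤ 2 ^ (C + 5) * (S + 1) := by
        calc 4 * M ≤ 4 * (2 ^ (C + 3) * (S + 1)) := Nat.mul_le_mul_left _ h1
          _ = _ := by ring
      omega
    have h6 : 2 ^ (C + 5) * (S + 1) ≤ 2 ^ (C + 5) * (2 * (C + 6) * k) := by
      have e1 : 2 ^ (C + 6) * (S + 1) = 2 ^ (C + 5) * (S + 1) + 2 ^ (C + 5) * (S + 1) := by ring
      have e2 : 2 ^ (C + 6) * (C + 6) * k = 2 ^ (C + 5) * (2 * (C + 6) * k) := by ring
      omega
    exact Nat.le_of_mul_le_mul_left h6 (by positivity)
  refine ⟨h4, h1.trans ?_⟩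
  calc 2 ^ (C + 3) * (S + 1) ≤ 2 ^ (C + 3) * (2 * (C + 6) * k) := Nat.mul_le_mul_left _ h4
    _ = _ := by ring

theorem Fam.dense (hF : Fam l r n A) (C γ : ℕ) (hn : 4 ≤ n)
    (hE : 2 ^ (Fintype.card E - n) ≤ n * 2 ^ C) (hγ : 2 ^ (C + 4) * (C + 6) ≤ 2 ^ γ)
    (k : ℕ) (h2 : 4 ≤ k) (hk : k ≤ n) :
    2 ^ nH l r (uu l r A k) ≤ 2 ^ γ * Helper86.numGood (ladj l r (uu l r A k)) := by
  have h1 := (hF.bounds C hn hE k (by omega) hk).2
  have h3 := hF.numGood k hk
  calc _ ≤ _ := h1
    _ ≤ 2 ^ γ * k := Nat.mul_le_mul_right _ hγ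
    _ ≤ _ := Nat.mul_le_mul_left _ (by omega)

end Pool.Agent.Helper86
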