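import Pool.Agent.Helper86.Core

/-!
Dual pairs of multigraphs on a common edge set (`a`, `b` give the ends of an edge in the first
graph, `l`, `r` its ends in the second one), contraction in the second graph, and the sparsity
bounds that follow from duality.
-/

namespace Pool.Agent.Helper86

open Finset

open scoped Classical

variable {V E Φ : Type*} [Fintype E]

/-- Cuts of the second graph are orthogonal to cuts of the first one, and every vector orthogonal
to the cuts of the second graph is a cut of the first one (up to loops of the second graph). -/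
structure IsDual (a b : E → V) (l r : E → Φ) : Prop where
  orth : ∀ (U : V → ZMod 2) (A : Φ → ZMod 2),
    ∑ e, (U (a e) + U (b e)) * (A (l e) + A (r e)) = 0
  cut : ∀ z : E → ZMod 2, (∀ A : Φ → ZMod 2, ∑ e, z e * (A (l e) + A (r e)) = 0) →
    ∃ U : V → ZMod 2, ∀ e, l e ≠ r e → z e = U (a e) + U (b e)

/-- The relation generated by the edges outside `H`. -/
def lev (l r : E → Φ) (H : Finset E) : Setoid Φ :=
  Relation.EqvGen.setoid (fun x y => ∃ e, e ∉ H ∧ l e = x ∧ r e = y)

omit [Fintype E] in
theorem lev_const {α : Type*} (l r : E → Φ) (H : Finset E) (A : Φ → α)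
    (hA : ∀ e, e ∉ H → A (l e) = A (r e)) {x y : Φ} (h : (lev l r H).r x y) : A x = A y := by
  induction h with
  | rel x y h => obtain ⟨e, he, rfl, rfl⟩ := h; exact hA e he
  | refl x => rfl
  | symm x y _ ih => exact ih.symm
  | trans x y z _ _ ih1 ih2 => exact ih1.trans ih2

omit [Fintype E] in
theorem lev_edge (l r : E → Φ) (H : Finset E) (e : E) (he : e ∉ H) :
    (lev l r H).r (l e) (r e) := Relation.EqvGen.rel _ _ ⟨e, he, rfl, rfl⟩

theorem z2_add (x y : ZMod 2) : x + y = 0 ↔ x = y := by revert x y; decide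

/-- Adjacency in the second graph. -/
def dadj (l r : E → Φ) (x y : Φ) : Prop :=
  x ≠ y ∧ ∃ e, (l e = x ∧ r e = y) ∨ (l e = y ∧ r e = x)

omit [Fintype E] in
theorem dadj_symm (l r : E → Φ) (x y : Φ) (h : dadj l r x y) : dadj l r y x := by
  obtain ⟨h1, e, h2⟩ := h
  exact ⟨h1.symm, e, h2.symm⟩

omit [Fintype E] in
theorem dadj_irr (l r : E → Φ) (x : Φ) : ¬ dadj l r x x := fun h => h.1 rfl

/-- Contracting edges of the second graph preserves duality. -/
theorem IsDual.contract {a b : E → V} {l r : E → Φ} (hD : IsDual a b l r) (H : Finset E) :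
    IsDual a b (fun e => Quotient.mk (lev l r H) (l e)) (fun e => Quotient.mk (lev l r H) (r e)) := by
  constructor
  · intro U A
    exact hD.orth U (fun x => A (Quotient.mk (lev l r H) x))
  · intro z hz
    let g : (Φ → ZMod 2) →ₗ[ZMod 2] ZMod 2 :=
      { toFun := fun A => ∑ e, (if e ∈ H then z e else 0) * (A (l e) + A (r e))
        map_add' := by
          intro A B
          rw [← sum_add_distrib]
          refine sum_congr rfl (fun e _ => ?_)
          simp only [Pi.add_apply]; ring
        map_smul' := by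
          intro c A
          simp only [Pi.smul_apply, smul_eq_mul, RingHom.id_apply, mul_sum]
          refine sum_congr rfl (fun e _ => ?_)
          ring }
    let f : (Φ → ZMod 2) →ₗ[ZMod 2] (E → ZMod 2) :=
      { toFun := fun A e => if e ∈ H then 0 else A (l e) + A (r e)
        map_add' := by
          intro A B
          funext e
          by_cases he : e ∈ H <;> simp [he]; ring
        map_smul' := by
          intro c A
          funext e
          by_cases he : e ∈ H <;> simp [he]; ring }
    have hker : g ∈ (LinearMap.ker f).dualAnnihilator := by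
      rw [Submodule.mem_dualAnnihilator]
      intro A hA
      have h0 : ∀ e, e ∉ H → A (l e) = A (r e) := by
        intro e he
        have : f A e = 0 := by rw [LinearMap.mem_ker.mp hA]; rfl
        simp only [f, LinearMap.coe_mk, AddHom.coe_mk, he, if_false] at this
        exact (z2_add _ _).mp this
      let A' : Quotient (lev l r H) → ZMod 2 := Quotient.lift A
        (fun x y h => lev_const l r H A h0 h)
      have h1 := hz A'
      simp only [g, LinearMap.coe_mk, AddHom.coe_mk]
      rw [← h1]
      refine sum_congr rfl (fun e _ => ?_)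
      by_cases he : e ∈ H
      · simp [he, A']
      · have e1 : A (l e) + A (r e) = 0 := (z2_add _ _).mpr (h0 e he)
        have e2 : A' (Quotient.mk (lev l r H) (l e)) + A' (Quotient.mk (lev l r H) (r e)) = 0 := e1
        rw [e1, e2, mul_zero, mul_zero]
    rw [← LinearMap.range_dualMap_eq_dualAnnihilator_ker] at hker
    obtain ⟨h, hh⟩ := hker
    have hgf : ∀ A, g A = h (f A) := by
      intro A
      rw [← hh]; rfl
    obtain ⟨U, hU⟩ := hD.cut (fun e => if e ∈ H then z e else h (Pi.single e 1)) (by
      intro A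
      have h1 : ∑ e, (if e ∈ H then z e else h (Pi.single e 1)) * (A (l e) + A (r e))
          = g A + h (f A) := by
        have h2 : h (f A) = ∑ e, f A e * h (Pi.single e 1) := by
          have := LinearMap.pi_apply_eq_sum_univ h (f A)
          rw [this]
          refine sum_congr rfl (fun e _ => ?_)
          rw [smul_eq_mul]
          congr 2
          funext j
          simp [Pi.single_apply, eq_comm]
        rw [h2]
        simp only [g, f, LinearMap.coe_mk, AddHom.coe_mk]
        rw [← sum_add_distrib]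
        refine sum_congr rfl (fun e _ => ?_)
        by_cases he : e ∈ H
        · simp [he]
        · simp [he, mul_comm]
      rw [h1, ← hgf]
      exact (z2_add _ _).mpr rfl)
    refine ⟨U, fun e he => ?_⟩
    have heH : e ∈ H := by
      by_contra hcon
      exact he (Quotient.sound (lev_edge l r H e hcon))
    have hlr : l e ≠ r e := by
      intro h
      exact he (by rw [h])
    have := hU e hlr
    simpa [heH] using this

/-- The incidence map of a family of edges of the second graph. -/
noncomputable def incm {τ : Type*} [Fintype τ] (x y : τ → Φ) (L : Finset Φ) :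
    (τ → ZMod 2) →ₗ[ZMod 2] (L → ZMod 2) where
  toFun C φ := ∑ t, C t * ((if x t = φ.1 then 1 else 0) + (if y t = φ.1 then 1 else 0))
  map_add' C C' := by
    funext φ
    simp only [Pi.add_apply]
    rw [← sum_add_distrib]
    refine sum_congr rfl (fun t _ => ?_)
    ring
  map_smul' c C := by
    funext φ
    simp only [Pi.smul_apply, smul_eq_mul, RingHom.id_apply, mul_sum]
    refine sum_congr rfl (fun t _ => ?_)
    ring

/-- The coboundary map. -/
def cobm {τ W : Type*} (α β : τ → W) : (W → ZMod 2) →ₗ[ZMod 2] (τ → ZMod 2) where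
  toFun Y t := Y (α t) + Y (β t)
  map_add' Y Y' := by funext t; simp only [Pi.add_apply]; ring
  map_smul' c Y := by funext t; simp only [Pi.smul_apply, smul_eq_mul, RingHom.id_apply]; ring

theorem incm_range_lt {τ : Type*} [Fintype τ] (x y : τ → Φ) (L : Finset Φ) (hL : L.Nonempty)
    (hx : ∀ t, x t ∈ L) (hy : ∀ t, y t ∈ L) :
    Module.finrank (ZMod 2) (LinearMap.range (incm x y L)) < L.card := by
  have h1 : LinearMap.range (incm x y L) ≠ ⊤ := by
    intro htop
    obtain ⟨φ, hφ⟩ := hL
    have h2 : (Pi.single (⟨φ, hφ⟩ : L) (1 : ZMod 2)) ∈ LinearMap.range (incm x y L) := by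
      rw [htop]; exact Submodule.mem_top
    obtain ⟨C, hC⟩ := h2
    have h3 : ∑ ψ : L, incm x y L C ψ = 1 := by
      rw [hC]
      simp
    have h4 : ∑ ψ : L, incm x y L C ψ = 0 := by
      simp only [incm, LinearMap.coe_mk, AddHom.coe_mk]
      rw [sum_comm]
      refine sum_eq_zero (fun t _ => ?_)
      rw [← mul_sum, sum_add_distrib]
      have e1 : ∀ z ∈ L, ∑ ψ : L, (if z = ψ.1 then (1 : ZMod 2) else 0) = 1 := by
        intro z hz
        rw [Finset.sum_eq_single (⟨z, hz⟩ : L)]
        · simp
        · intro b _ hb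
          have : z ≠ b.1 := fun h => hb (Subtype.ext h.symm)
          simp [this]
        · simp
      rw [e1 _ (hx t), e1 _ (hy t)]
      have : (1 : ZMod 2) + 1 = 0 := by decide
      rw [this, mul_zero]
    rw [h3] at h4
    exact one_ne_zero h4
  have h5 := Submodule.finrank_lt h1
  rwa [Module.finrank_fintype_fun_eq_card, Fintype.card_coe] at h5

theorem cobm_range {τ W : Type*} [Fintype τ] [Fintype W] [DecidableEq W] (α β : τ → W)
    (Ω : Finset W) (hΩ : ∀ v, v ∉ Ω → cobm α β (Pi.single v 1) = 0) (v0 : W) (hv0 : v0 ∈ Ω) :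
    Module.finrank (ZMod 2) (LinearMap.range (cobm α β)) + 1 ≤ Ω.card := by
  set s : W → (τ → ZMod 2) := fun v => cobm α β (Pi.single v 1) with hs
  have hexp : ∀ Y, cobm α β Y = ∑ v ∈ Ω, Y v • s v := by
    intro Y
    have h1 : Y = ∑ v, Y v • (Pi.single v (1 : ZMod 2) : W → ZMod 2) := by
      funext w
      rw [Finset.sum_apply]
      simp [Pi.single_apply]
    conv_lhs => rw [h1]
    rw [map_sum]
    rw [← Finset.sum_subset (subset_univ Ω)]
    · refine sum_congr rfl (fun v _ => ?_)
      rw [map_smul]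
    · intro v _ hv
      rw [map_smul, hΩ v hv, smul_zero]
  have hone : ∑ v ∈ Ω, s v = 0 := by
    have h1 := hexp (fun _ => 1)
    simp only [one_smul] at h1
    rw [← h1]
    funext t
    simp only [cobm, LinearMap.coe_mk, AddHom.coe_mk, Pi.zero_apply]
    decide
  have hv0' : s v0 = ∑ v ∈ Ω.erase v0, s v := by
    have h1 := Finset.add_sum_erase Ω s hv0
    rw [hone] at h1
    have h2 : s v0 + s v0 = 0 := by
      funext t; simp only [Pi.add_apply, Pi.zero_apply]; exact (z2_add _ _).mpr rfl
    have h3 : s v0 + ∑ v ∈ Ω.erase v0, s v = s v0 + s v0 := by rw [h1, h2]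
    exact (add_left_cancel h3).symm
  have hle : LinearMap.range (cobm α β) ≤ Submodule.span (ZMod 2) ((Ω.erase v0).image s : Set _) := by
    rintro _ ⟨Y, rfl⟩
    rw [hexp]
    refine Submodule.sum_mem _ (fun v hv => Submodule.smul_mem _ _ ?_)
    by_cases h : v = v0
    · rw [h, hv0']
      refine Submodule.sum_mem _ (fun w hw => Submodule.subset_span ?_)
      exact mem_coe.mpr (mem_image_of_mem s hw)
    · exact Submodule.subset_span (mem_coe.mpr (mem_image_of_mem s (mem_erase.mpr ⟨h, hv⟩)))
  have h1 := Submodule.finrank_mono hle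
  have h2 := finrank_span_finset_le_card (R := ZMod 2) ((Ω.erase v0).image s)
  have h3 : ((Ω.erase v0).image s).card ≤ (Ω.erase v0).card := card_image_le
  rw [card_erase_of_mem hv0] at h3
  have h4 : 0 < Ω.card := card_pos.mpr ⟨v0, hv0⟩
  rw [Set.finrank] at h2
  omega

theorem cobm_range_zero {τ W : Type*} [Fintype τ] [Fintype W] [DecidableEq W] (α β : τ → W)
    (h0 : ∀ v, cobm α β (Pi.single v 1) = 0) :
    Module.finrank (ZMod 2) (LinearMap.range (cobm α β)) = 0 := by
  have h1 : cobm α β = 0 := by
    apply LinearMap.pi_ext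
    intro v c
    have : (Pi.single v c : W → ZMod 2) = c • Pi.single v 1 := by
      funext w; simp [Pi.single_apply]
    rw [this, map_smul, h0 v, smul_zero, LinearMap.zero_apply]
  rw [h1, LinearMap.range_zero, finrank_bot]

/-- The bound on the number of edges of a family in terms of its minimal cycle length. -/
theorem IsDual.euler [Fintype V] {a b : E → V} {l r : E → Φ} (hD : IsDual a b l r)
    {τ : Type*} [Fintype τ] (ε : τ → E) (hε : Function.Injective ε) (L : Finset Φ)
    (hL : L.Nonempty) (hlL : ∀ t, l (ε t) ∈ L) (hrL : ∀ t, r (ε t) ∈ L)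
    (hloop : ∀ t, l (ε t) ≠ r (ε t)) (g : ℕ)
    (hg : ∀ C : τ → ZMod 2, C ≠ 0 → incm (fun t => l (ε t)) (fun t => r (ε t)) L C = 0 →
      g ≤ (univ.filter (fun t => C t ≠ 0)).card)
    (hcard : L.card ≤ Fintype.card τ) :
    g * (Fintype.card τ + 2) ≤ 2 * Fintype.card τ + g * L.card := by
  set st : Setoid V := Relation.EqvGen.setoid
    (fun x y => ∃ e, e ∉ Set.range ε ∧ l e ≠ r e ∧ a e = x ∧ b e = y) with hst
  have : Fintype (Quotient st) := Fintype.ofFinite _
  set α : τ → Quotient st := fun t => Quotient.mk st (a (ε t)) with hα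
  set β : τ → Quotient st := fun t => Quotient.mk st (b (ε t)) with hβ
  set inc := incm (fun t => l (ε t)) (fun t => r (ε t)) L with hinc
  set S := cobm α β with hS
  have hconst : ∀ (U : V → ZMod 2), (∀ e, e ∉ Set.range ε → l e ≠ r e → U (a e) = U (b e)) →
      ∀ x y, st.r x y → U x = U y := by
    intro U hU x y h
    induction h with
    | rel x y h => obtain ⟨e, he, hlr, rfl, rfl⟩ := h; exact hU e he hlr
    | refl x => rfl
    | symm x y _ ih => exact ih.symm
    | trans x y z _ _ ih1 ih2 => exact ih1.trans ih2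
  -- sums over the family
  have hsum : ∀ (h : E → ZMod 2), (∀ e, e ∉ Set.range ε → h e = 0) →
      ∑ e, h e = ∑ t, h (ε t) := by
    intro h h0
    rw [← Finset.sum_image (s := univ) (g := ε) (f := h) (fun t _ t' _ he => hε he)]
    symm
    apply Finset.sum_subset (subset_univ _)
    intro e _ he
    apply h0
    rintro ⟨t, rfl⟩
    exact he (mem_image_of_mem ε (mem_univ t))
  -- (1) every even vector is a coboundary
  have hker : LinearMap.ker inc ≤ LinearMap.range S := by
    intro C hC
    rw [LinearMap.mem_ker] at hC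
    set z : E → ZMod 2 := fun e => if h : ∃ t, ε t = e then C h.choose else 0 with hz
    have hzε : ∀ t, z (ε t) = C t := by
      intro t
      have hex : ∃ t', ε t' = ε t := ⟨t, rfl⟩
      simp only [hz, hex, dif_pos]
      congr 1
      exact hε hex.choose_spec
    have hz0 : ∀ e, e ∉ Set.range ε → z e = 0 := by
      intro e he
      have : ¬ ∃ t, ε t = e := fun ⟨t, ht⟩ => he ⟨t, ht⟩
      simp only [hz, this, dif_neg, not_false_eq_true]
    obtain ⟨U, hU⟩ := hD.cut z (by
      intro A
      rw [hsum (fun e => z e * (A (l e) + A (r e))) (fun e he => by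
        simp only [hz0 e he, zero_mul])]
      have h1 : ∀ t, A (l (ε t)) + A (r (ε t)) = ∑ φ : L, A φ.1 *
          ((if l (ε t) = φ.1 then 1 else 0) + (if r (ε t) = φ.1 then 1 else 0)) := by
        intro t
        simp only [mul_add, sum_add_distrib]
        congr 1
        · rw [Finset.sum_eq_single (⟨l (ε t), hlL t⟩ : L)]
          · simp
          · intro c _ hc
            have : l (ε t) ≠ c.1 := fun h => hc (Subtype.ext h.symm)
            simp [this]
          · simp
        · rw [Finset.sum_eq_single (⟨r (ε t), hrL t⟩ : L)]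
          · simp
          · intro c _ hc
            have : r (ε t) ≠ c.1 := fun h => hc (Subtype.ext h.symm)
            simp [this]
          · simp
      calc ∑ t, z (ε t) * (A (l (ε t)) + A (r (ε t)))
          = ∑ t, ∑ φ : L, A φ.1 * (C t *
            ((if l (ε t) = φ.1 then 1 else 0) + (if r (ε t) = φ.1 then 1 else 0))) := by
            refine sum_congr rfl (fun t _ => ?_)
            rw [hzε, h1, mul_sum]
            refine sum_congr rfl (fun φ _ => ?_)
            ring
        _ = ∑ φ : L, A φ.1 * inc C φ := by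
            rw [sum_comm]
            refine sum_congr rfl (fun φ _ => ?_)
            rw [← mul_sum]
            rfl
        _ = 0 := by
            rw [hC]
            simp)
    have hUc := hconst U (fun e he hlr => by
      have := hU e hlr
      rw [hz0 e he] at this
      exact (z2_add _ _).mp this.symm)
    refine ⟨Quotient.lift U (fun x y h => hUc x y h), ?_⟩
    funext t
    have := hU (ε t) (hloop t)
    rw [hzε] at this
    rw [this]
    rfl
  -- (2) single coboundaries are even
  have heven : ∀ v, inc (S (Pi.single v 1)) = 0 := by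
    intro v
    funext φ
    have h1 := hD.orth (fun x => if Quotient.mk st x = v then 1 else 0)
      (fun ψ => if ψ = φ.1 then 1 else 0)
    rw [hsum _ (fun e he => by
      by_cases hlr : l e = r e
      · simp only [hlr]
        rw [(z2_add _ _).mpr rfl, mul_zero]
      · have : Quotient.mk st (a e) = Quotient.mk st (b e) :=
          Quotient.sound (Relation.EqvGen.rel _ _ ⟨e, he, hlr, rfl, rfl⟩)
        simp only [this]
        rw [(z2_add _ _).mpr rfl, zero_mul])] at h1
    rw [Pi.zero_apply, ← h1]
    simp only [hinc, incm, hS, cobm, LinearMap.coe_mk, AddHom.coe_mk, hα, hβ]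
    refine sum_congr rfl (fun t _ => ?_)
    simp only [Pi.single_apply]
  -- the nonzero single coboundaries
  set Ω : Finset (Quotient st) := univ.filter (fun v => S (Pi.single v 1) ≠ 0) with hΩ
  have hcount : g * Ω.card ≤ 2 * Fintype.card τ := by
    calc g * Ω.card = ∑ v ∈ Ω, g := by rw [sum_const, smul_eq_mul, mul_comm]
      _ ≤ ∑ v ∈ Ω, (univ.filter (fun t => S (Pi.single v 1) t ≠ 0)).card := by
          refine sum_le_sum (fun v hv => ?_)
          exact hg _ (mem_filter.mp hv).2 (heven v)
      _ = ∑ v ∈ Ω, ∑ t, (if S (Pi.single v 1) t ≠ 0 then 1 else 0) := by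
          refine sum_congr rfl (fun v _ => ?_)
          rw [Finset.sum_boole]
          simp
      _ = ∑ t, ∑ v ∈ Ω, (if S (Pi.single v 1) t ≠ 0 then 1 else 0) := sum_comm
      _ ≤ ∑ t : τ, 2 := by
          refine sum_le_sum (fun t _ => ?_)
          rw [Finset.sum_boole]
          simp only [Nat.cast_id]
          refine (card_le_card (t := {α t, β t}) ?_).trans (card_le_two)
          intro v hv
          have h2 := (mem_filter.mp hv).2
          simp only [mem_insert, mem_singleton]
          by_contra hcon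
          push Not at hcon
          apply h2
          simp only [hS, cobm, LinearMap.coe_mk, AddHom.coe_mk]
          rw [Pi.single_eq_of_ne hcon.1.symm, Pi.single_eq_of_ne hcon.2.symm, add_zero]
      _ = 2 * Fintype.card τ := by rw [sum_const, card_univ, smul_eq_mul, mul_comm]
  have hrank := LinearMap.finrank_range_add_finrank_ker inc
  rw [Module.finrank_fintype_fun_eq_card] at hrank
  have hlt := incm_range_lt (fun t => l (ε t)) (fun t => r (ε t)) L hL hlL hrL
  rw [← hinc] at hlt
  have hmono := Submodule.finrank_mono hker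
  rcases Ω.eq_empty_or_nonempty with hemp | ⟨v0, hv0⟩
  · exfalso
    have h0 : ∀ v, S (Pi.single v 1) = 0 := by
      intro v
      by_contra hcon
      have : v ∈ Ω := by rw [hΩ, mem_filter]; exact ⟨mem_univ _, hcon⟩
      rw [hemp] at this
      exact absurd this (notMem_empty v)
    have h1 := cobm_range_zero α β h0
    rw [← hS] at h1
    omega
  · have h1 := cobm_range α β Ω (by
      intro v hv
      by_contra hcon
      exact hv (by rw [hΩ, mem_filter]; exact ⟨mem_univ _, hcon⟩)) v0 hv0
    rw [← hS] at h1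
    have h2 : Fintype.card τ + 2 ≤ Ω.card + L.card := by omega
    calc g * (Fintype.card τ + 2) ≤ g * (Ω.card + L.card) := Nat.mul_le_mul_left _ h2
      _ = g * Ω.card + g * L.card := mul_add _ _ _
      _ ≤ _ := Nat.add_le_add_right hcount _

theorem parity_at {τ : Type*} [Fintype τ] (x y : τ → Φ) (L : Finset Φ) (C : τ → ZMod 2)
    (h0 : incm x y L C = 0) (φ : Φ) (hφ : φ ∈ L) (t0 : τ) (ht0 : C t0 ≠ 0)
    (hends : (x t0 = φ ∧ y t0 ≠ φ) ∨ (x t0 ≠ φ ∧ y t0 = φ)) :
    ∃ t1, t1 ≠ t0 ∧ C t1 ≠ 0 ∧ (x t1 = φ ∨ y t1 = φ) := by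
  by_contra hcon
  push Not at hcon
  have h1 := congrFun h0 ⟨φ, hφ⟩
  simp only [incm, LinearMap.coe_mk, AddHom.coe_mk, Pi.zero_apply] at h1
  rw [Finset.sum_eq_single t0] at h1
  · rcases hends with ⟨ha, hb⟩ | ⟨ha, hb⟩
    · simp [ha, hb, ht0] at h1
    · simp [ha, hb, ht0] at h1
  · intro t _ ht
    by_cases hC : C t = 0
    · simp [hC]
    · obtain ⟨h2, h3⟩ := hcon t ht hC
      simp [h2, h3]
  · simp

theorem girth_three {τ : Type*} [Fintype τ] (x y : τ → Φ) (L : Finset Φ)
    (hx : ∀ t, x t ∈ L) (hy : ∀ t, y t ∈ L) (hxy : ∀ t, x t ≠ y t)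
    (hinj : ∀ t t', s(x t, y t) = s(x t', y t') → t = t')
    (C : τ → ZMod 2) (hC : C ≠ 0) (h0 : incm x y L C = 0) :
    3 ≤ (univ.filter (fun t => C t ≠ 0)).card := by
  obtain ⟨t0, ht0⟩ : ∃ t, C t ≠ 0 := by
    by_contra hcon
    push Not at hcon
    exact hC (funext hcon)
  obtain ⟨t1, h1, hC1, he1⟩ := parity_at x y L C h0 (x t0) (hx t0) t0 ht0
    (Or.inl ⟨rfl, (hxy t0).symm⟩)
  obtain ⟨t2, h2, hC2, he2⟩ := parity_at x y L C h0 (y t0) (hy t0) t0 ht0
    (Or.inr ⟨hxy t0, rfl⟩)
  have h12 : t1 ≠ t2 := by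
    rintro rfl
    apply h1
    apply hinj
    rw [Sym2.eq_iff]
    have := hxy t0
    rcases he1 with e1 | e1 <;> rcases he2 with e2 | e2
    · exact absurd (e1.symm.trans e2) this
    · exact Or.inl ⟨e1, e2⟩
    · exact Or.inr ⟨e2, e1⟩
    · exact absurd (e1.symm.trans e2) this
  have : 2 < (univ.filter (fun t => C t ≠ 0)).card := Finset.two_lt_card.mpr
    ⟨t0, by simp [ht0], t1, by simp [hC1], t2, by simp [hC2], h1.symm, h2.symm, h12⟩
  omega

/-- The second graph of a dual pair is sparse. -/
theorem IsDual.sparse [Fintype V] [Fintype Φ] {a b : E → V} {l r : E → Φ} (hD : IsDual a b l r)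
    (L : Finset Φ) : ∑ f ∈ L, (L ∩ nb (dadj l r) f).card ≤ 6 * L.card := by
  rcases L.eq_empty_or_nonempty with rfl | hLne
  · simp
  let Gr : SimpleGraph L :=
    { Adj := fun x y => dadj l r x.1 y.1
      symm := ⟨fun x y h => dadj_symm l r _ _ h⟩
      loopless := ⟨fun x h => dadj_irr l r _ h⟩ }
  have hdeg : ∀ x : L, Gr.degree x = (L ∩ nb (dadj l r) x.1).card := by
    intro x
    rw [← SimpleGraph.card_neighborFinset_eq_degree,
      ← Finset.card_map (Function.Embedding.subtype (fun x => x ∈ L))]
    congr 1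
    ext y
    simp only [mem_map, SimpleGraph.mem_neighborFinset, Function.Embedding.coe_subtype,
      Subtype.exists, exists_and_right, exists_eq_right, mem_inter, nb, mem_filter, mem_univ,
      true_and]
    constructor
    · rintro ⟨hy, h⟩; exact ⟨hy, h⟩
    · rintro ⟨hy, h⟩; exact ⟨hy, h⟩
  have hsum : ∑ f ∈ L, (L ∩ nb (dadj l r) f).card = 2 * Gr.edgeFinset.card := by
    rw [← SimpleGraph.sum_degrees_eq_twice_card_edges, ← Finset.sum_coe_sort]
    exact sum_congr rfl (fun x _ => (hdeg x).symm)
  rw [hsum]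
  have hex : ∀ t : Gr.edgeFinset, ∃ e, s(l e, r e) = Sym2.map Subtype.val t.1 := by
    rintro ⟨t, ht⟩
    rw [SimpleGraph.mem_edgeFinset] at ht
    induction t using Sym2.ind with
    | _ x y =>
      rw [SimpleGraph.mem_edgeSet] at ht
      obtain ⟨_, e, he⟩ := ht
      refine ⟨e, ?_⟩
      rw [Sym2.map_mk, Sym2.eq_iff]
      exact he
  choose ε hε using hex
  have hmem0 : ∀ (t : Sym2 L) (e : E), t ∈ Gr.edgeSet → s(l e, r e) = Sym2.map Subtype.val t →
      l e ∈ L ∧ r e ∈ L ∧ l e ≠ r e := by
    intro t e ht' h1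
    induction t using Sym2.ind with
    | _ x y =>
      rw [SimpleGraph.mem_edgeSet] at ht'
      rw [Sym2.map_mk, Sym2.eq_iff] at h1
      have hne : x.1 ≠ y.1 := ht'.1
      rcases h1 with ⟨h1, h2⟩ | ⟨h1, h2⟩
      · exact ⟨h1 ▸ x.2, h2 ▸ y.2, by rw [h1, h2]; exact hne⟩
      · exact ⟨h1 ▸ y.2, h2 ▸ x.2, by rw [h1, h2]; exact hne.symm⟩
  have hmem : ∀ t : Gr.edgeFinset, l (ε t) ∈ L ∧ r (ε t) ∈ L ∧ l (ε t) ≠ r (ε t) := by
    rintro ⟨t, ht⟩
    have ht' := ht
    rw [SimpleGraph.mem_edgeFinset] at ht'
    exact hmem0 t _ ht' (hε ⟨t, ht⟩)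
  have hinj : ∀ t t' : Gr.edgeFinset, s(l (ε t), r (ε t)) = s(l (ε t'), r (ε t')) → t = t' := by
    intro t t' h
    rw [hε, hε] at h
    exact Subtype.ext (Sym2.map.injective Subtype.val_injective h)
  rcases Nat.lt_or_ge (Fintype.card Gr.edgeFinset) L.card with hlt | hge
  · rw [Fintype.card_coe] at hlt
    omega
  · have h1 := hD.euler ε (fun t t' h => hinj t t' (by rw [h])) L hLne (fun t => (hmem t).1)
      (fun t => (hmem t).2.1) (fun t => (hmem t).2.2) 3
      (fun C hC h0 => girth_three _ _ L (fun t => (hmem t).1) (fun t => (hmem t).2.1)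
        (fun t => (hmem t).2.2) hinj C hC h0) hge
    rw [Fintype.card_coe] at h1
    omega

theorem IsDual.noK33 [Fintype V] {a b : E → V} {l r : E → Φ} (hD : IsDual a b l r)
    (u f : Fin 3 → Φ) (hu : Function.Injective u) (hf : Function.Injective f)
    (h : ∀ i j, dadj l r (f j) (u i)) : False := by
  have hex : ∀ p : Fin 3 × Fin 3, ∃ e,
      (l e = f p.2 ∧ r e = u p.1) ∨ (l e = u p.1 ∧ r e = f p.2) := fun p => (h p.1 p.2).2
  choose ε hε using hex
  have huf : ∀ i j, u i ≠ f j := by
    intro i j e
    have := h i j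
    rw [e] at this
    exact dadj_irr l r _ this
  have hinj : ∀ p p', s(l (ε p), r (ε p)) = s(l (ε p'), r (ε p')) → p = p' := by
    intro p p' he
    have h1 : s(l (ε p), r (ε p)) = s(u p.1, f p.2) := by
      rw [Sym2.eq_iff]; have := hε p; tauto
    have h2 : s(l (ε p'), r (ε p')) = s(u p'.1, f p'.2) := by
      rw [Sym2.eq_iff]; have := hε p'; tauto
    rw [h1, h2, Sym2.eq_iff] at he
    rcases he with ⟨e1, e2⟩ | ⟨e1, e2⟩
    · exact Prod.ext (hu e1) (hf e2)
    · exact absurd e1 (huf _ _)
  set L : Finset Φ := univ.image u ∪ univ.image f with hL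
  have huL : ∀ i, u i ∈ L := fun i => mem_union_left _ (mem_image_of_mem u (mem_univ i))
  have hfL : ∀ i, f i ∈ L := fun i => mem_union_right _ (mem_image_of_mem f (mem_univ i))
  have hLcard : L.card ≤ 6 := by
    refine (card_union_le _ _).trans ?_
    have h1 := card_image_le (s := (univ : Finset (Fin 3))) (f := u)
    have h2 := card_image_le (s := (univ : Finset (Fin 3))) (f := f)
    rw [card_univ, Fintype.card_fin] at h1 h2
    omega
  have hl : ∀ p, l (ε p) ∈ L := by
    intro p
    rcases hε p with ⟨h1, _⟩ | ⟨h1, _⟩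
    · rw [h1]; exact hfL _
    · rw [h1]; exact huL _
  have hr : ∀ p, r (ε p) ∈ L := by
    intro p
    rcases hε p with ⟨_, h1⟩ | ⟨_, h1⟩
    · rw [h1]; exact huL _
    · rw [h1]; exact hfL _
  have hne : ∀ p, l (ε p) ≠ r (ε p) := by
    intro p
    rcases hε p with ⟨h1, h2⟩ | ⟨h1, h2⟩
    · rw [h1, h2]; exact (huf _ _).symm
    · rw [h1, h2]; exact huf _ _
  have hcard : Fintype.card (Fin 3 × Fin 3) = 9 := by simp
  have h1 := hD.euler ε (fun t t' h => hinj t t' (by rw [h])) L ⟨u 0, huL 0⟩ hl hr hne 4 (by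
    intro C hC h0
    obtain ⟨t0, ht0⟩ : ∃ t, C t ≠ 0 := by
      by_contra hcon
      push Not at hcon
      exact hC (funext hcon)
    -- another nonzero entry in the same row
    have row : ∀ t : Fin 3 × Fin 3, C t ≠ 0 → ∃ j, j ≠ t.2 ∧ C (t.1, j) ≠ 0 := by
      intro t ht
      obtain ⟨t1, h1, hC1, he1⟩ := parity_at _ _ L C h0 (u t.1) (huL _) t ht (by
        rcases hε t with ⟨h1, h2⟩ | ⟨h1, h2⟩
        · exact Or.inr ⟨by rw [h1]; exact (huf _ _).symm, h2⟩
        · exact Or.inl ⟨h1, by rw [h2]; exact (huf _ _).symm⟩)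
      have h3 : t1.1 = t.1 := by
        rcases hε t1 with ⟨h2, h3⟩ | ⟨h2, h3⟩
        · rw [h2, h3] at he1
          rcases he1 with he1 | he1
          · exact absurd he1.symm (huf _ _)
          · exact hu he1
        · rw [h2, h3] at he1
          rcases he1 with he1 | he1
          · exact hu he1
          · exact absurd he1.symm (huf _ _)
      refine ⟨t1.2, ?_, ?_⟩
      · intro h4; exact h1 (Prod.ext h3 h4)
      · rw [← h3]; exact hC1
    have col : ∀ t : Fin 3 × Fin 3, C t ≠ 0 → ∃ i, i ≠ t.1 ∧ C (i, t.2) ≠ 0 := by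
      intro t ht
      obtain ⟨t1, h1, hC1, he1⟩ := parity_at _ _ L C h0 (f t.2) (hfL _) t ht (by
        rcases hε t with ⟨h1, h2⟩ | ⟨h1, h2⟩
        · exact Or.inl ⟨h1, by rw [h2]; exact huf _ _⟩
        · exact Or.inr ⟨by rw [h1]; exact huf _ _, h2⟩)
      have h3 : t1.2 = t.2 := by
        rcases hε t1 with ⟨h2, h3⟩ | ⟨h2, h3⟩
        · rw [h2, h3] at he1
          rcases he1 with he1 | he1
          · exact hf he1
          · exact absurd he1 (huf _ _)
        · rw [h2, h3] at he1
          rcases he1 with he1 | he1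
          · exact absurd he1 (huf _ _)
          · exact hf he1
      refine ⟨t1.1, ?_, ?_⟩
      · intro h4; exact h1 (Prod.ext h4 h3)
      · rw [← h3]; exact hC1
    obtain ⟨j1, hj1, hC1⟩ := row t0 ht0
    obtain ⟨i1, hi1, hC2⟩ := col t0 ht0
    obtain ⟨j2, hj2, hC3⟩ := row (i1, t0.2) hC2
    have hsub : ({(t0.1, t0.2), (t0.1, j1), (i1, t0.2), (i1, j2)} : Finset (Fin 3 × Fin 3))
        ⊆ univ.filter (fun t => C t ≠ 0) := by
      intro t ht
      simp only [mem_insert, mem_singleton] at ht
      rw [mem_filter]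
      refine ⟨mem_univ _, ?_⟩
      rcases ht with rfl | rfl | rfl | rfl
      · exact ht0
      · exact hC1
      · exact hC2
      · exact hC3
    refine le_trans ?_ (card_le_card hsub)
    have hj2' : j2 ≠ t0.2 := hj2
    rw [card_insert_of_notMem, card_insert_of_notMem, card_insert_of_notMem, card_singleton]
    · simp [hj2'.symm]
    · simp [hi1.symm]
    · simp [Prod.ext_iff, hj1.symm, hi1.symm]) (by rw [hcard]; omega)
  rw [hcard] at h1
  omega

theorem IsDual.common [Fintype V] [Fintype Φ] {a b : E → V} {l r : E → Φ} (hD : IsDual a b l r)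
    (u v w : Φ) (huv : u ≠ v) (huw : u ≠ w) (hvw : v ≠ w) :
    (univ.filter (fun f => dadj l r f u ∧ dadj l r f v ∧ dadj l r f w)).card ≤ 2 := by
  by_contra hcon
  push Not at hcon
  obtain ⟨f1, h1, f2, h2, f3, h3, h12, h13, h23⟩ := Finset.two_lt_card.mp hcon
  rw [mem_filter] at h1 h2 h3
  refine hD.noK33 ![u, v, w] ![f1, f2, f3] ?_ ?_ ?_
  · intro i j hij
    fin_cases i <;> fin_cases j <;> simp_all
  · intro i j hij
    fin_cases i <;> fin_cases j <;> simp_all
  · intro i j
    fin_cases i <;> fin_cases j <;> simp_all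

end Pool.Agent.Helper86
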