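import Pool.Agent.Helper86.Levels
import Pool.Agent.Helper86.Hub

/-!
The chain of levels: each sufficiently sparse chain of levels contributes an independent
separated pair, which bounds the length of the chain.
-/

namespace Pool.Agent.Helper86

open Finset

open scoped Classical

variable {V E Φ : Type*} [Fintype E]

theorem inj3 {α : Type*} {a b c : α} (hab : a ≠ b) (hac : a ≠ c) (hbc : b ≠ c) :
    Function.Injective ![a, b, c] := by
  intro i j hij
  fin_cases i <;> fin_cases j <;> simp_all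

omit [Fintype E] in
theorem lev_mono (l r : E → Φ) {H K : Finset E} (h : H ⊆ K) {x y : Φ}
    (hxy : (lev l r K).r x y) : (lev l r H).r x y := by
  induction hxy with
  | rel x y h1 => obtain ⟨e, he, rfl, rfl⟩ := h1; exact lev_edge l r H e (fun h2 => he (h h2))
  | refl x => exact (lev l r H).refl x
  | symm x y _ ih => exact (lev l r H).symm ih
  | trans x y z _ _ ih1 ih2 => exact (lev l r H).trans ih1 ih2

theorem lev_refine (l r : E → Φ) (H : Finset E) (W : Φ → ZMod 2) {x y : Φ}
    (hxy : (lev l r H).r x y) (hW : ∀ z, (lev l r H).r x z → W z = 0) :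
    (lev l r (H ∪ supp l r W)).r x y := by
  induction hxy with
  | rel x y h1 =>
    obtain ⟨e, he, rfl, rfl⟩ := h1
    apply lev_edge
    intro h2
    rcases mem_union.mp h2 with h3 | h3
    · exact he h3
    · rw [mem_supp, hW _ ((lev l r H).refl _), hW _ (lev_edge l r H e he)] at h3
      exact h3 rfl
  | refl x => exact (lev l r _).refl x
  | symm x y h ih =>
    exact (lev l r _).symm (ih (fun z hz => hW z ((lev l r H).trans ((lev l r H).symm h) hz)))
  | trans x y z h1 h2 ih1 ih2 =>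
    exact (lev l r _).trans (ih1 hW)
      (ih2 (fun w hw => hW w ((lev l r H).trans h1 hw)))

variable [Fintype V] [Fintype Φ]

theorem hub_level {a b : E → V} {l r : E → Φ} (hD : IsDual a b l r) (H : Finset E) (γ : ℕ)
    (hgood : 2 ^ nH l r H ≤ 2 ^ γ * numGood (ladj l r H))
    (hN : nH l r H * 2 ^ (2 * γ + 5) ≤ 2 ^ nH l r H) :
    ∃ X : Finset (Quotient (lev l r H)), X.card ≤ kk γ ∧ hubs (ladj l r H) γ ⊆ X ∧
      ∀ f, f ∉ X → ∃ w w', Sep (ladj l r H) γ w w' ∧ ladj l r H f w ∧ ladj l r H f w' := by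
  refine hub_lemma (ladj l r H) (fun f g h => dadj_symm _ _ _ _ h) (fun f h => dadj_irr _ _ _ h)
    γ hgood hN ?_ ?_
  · intro u v w huv huw hvw
    exact (hD.contract H).common u v w huv huw hvw
  · intro L
    exact (hD.contract H).sparse L

theorem mem_hubs {Ψ : Type*} [Fintype Ψ] {adj : Ψ → Ψ → Prop} {γ : ℕ} {w w' : Ψ}
    (h : Sep adj γ w w') : w ∈ hubs adj γ ∧ w' ∈ hubs adj γ := by
  rw [hubs, mem_filter, mem_filter]
  exact ⟨⟨mem_univ _, w', h⟩, ⟨mem_univ _, w, sep_symm adj γ h⟩⟩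

omit [Fintype Φ] in
theorem IsDual.common3 {a b : E → V} {l r : E → Φ} (hD : IsDual a b l r) (H : Finset E)
    {u v w : Quotient (lev l r H)} (huv : u ≠ v) (huw : u ≠ w) (hvw : v ≠ w)
    (f : Fin 3 → Quotient (lev l r H)) (hf : Function.Injective f)
    (h : ∀ i, ladj l r H (f i) u ∧ ladj l r H (f i) v ∧ ladj l r H (f i) w) : False := by
  refine (hD.contract H).noK33 ![u, v, w] f (inj3 huv huw hvw) hf ?_
  · intro i j
    have := h j
    fin_cases i
    · exact this.1
    · exact this.2.1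
    · exact this.2.2

omit [Fintype V] [Fintype E] [Fintype Φ] in
/-- Adjacency at a fine level descends to coarser levels. -/
theorem ladj_mono {l r : E → Φ} {H K : Finset E} (h : H ⊆ K) {x y : Φ}
    (hxy : ladj l r K (Quotient.mk (lev l r K) x) (Quotient.mk (lev l r K) y))
    (hne : Quotient.mk (lev l r H) x ≠ Quotient.mk (lev l r H) y) :
    ladj l r H (Quotient.mk (lev l r H) x) (Quotient.mk (lev l r H) y) := by
  obtain ⟨_, e, he⟩ := hxy
  refine ⟨hne, e, ?_⟩
  rcases he with ⟨h1, h2⟩ | ⟨h1, h2⟩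
  · left
    exact ⟨Quotient.sound (lev_mono l r h (Quotient.exact h1)),
      Quotient.sound (lev_mono l r h (Quotient.exact h2))⟩
  · right
    exact ⟨Quotient.sound (lev_mono l r h (Quotient.exact h1)),
      Quotient.sound (lev_mono l r h (Quotient.exact h2))⟩

omit [Fintype Φ] in
theorem pair_from_three {a b : E → V} {l r : E → Φ} (hD : IsDual a b l r)
    (H' H Ht : Finset E) (h1 : H' ⊆ H) (h2 : H ⊆ Ht)
    (u u' : Quotient (lev l r H)) (huu : u ≠ u') (x x' : Φ)
    (hxx : Quotient.mk (lev l r Ht) x ≠ Quotient.mk (lev l r Ht) x')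
    (φ : Fin 3 → Φ) (hφ : Function.Injective (fun i => Quotient.mk (lev l r H) (φ i)))
    (hu : ∀ i, ladj l r H (Quotient.mk (lev l r H) (φ i)) u ∧
      ladj l r H (Quotient.mk (lev l r H) (φ i)) u')
    (hx : ∀ i, ladj l r Ht (Quotient.mk (lev l r Ht) (φ i)) (Quotient.mk (lev l r Ht) x) ∧
      ladj l r Ht (Quotient.mk (lev l r Ht) (φ i)) (Quotient.mk (lev l r Ht) x'))
    (hnx : ∀ i, Quotient.mk (lev l r H) (φ i) ≠ Quotient.mk (lev l r H) x ∧
      Quotient.mk (lev l r H) (φ i) ≠ Quotient.mk (lev l r H) x')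
    (hH' : ∀ e ∈ H', Quotient.mk (lev l r H) (l e) ≠ Quotient.mk (lev l r H) (φ 0) ∧
      Quotient.mk (lev l r H) (r e) ≠ Quotient.mk (lev l r H) (φ 0)) :
    ¬ (lev l r H).r x x' ∧ (lev l r H').r x x' := by
  have hA : ∀ i, ladj l r H (Quotient.mk (lev l r H) (φ i)) (Quotient.mk (lev l r H) x) ∧
      ladj l r H (Quotient.mk (lev l r H) (φ i)) (Quotient.mk (lev l r H) x') := fun i =>
    ⟨ladj_mono h2 (hx i).1 (hnx i).1, ladj_mono h2 (hx i).2 (hnx i).2⟩
  have hB : ∀ v : Quotient (lev l r H), (∀ i, ladj l r H (Quotient.mk (lev l r H) (φ i)) v) →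
      v = u ∨ v = u' := by
    intro v hv
    by_contra hcon
    push Not at hcon
    exact hD.common3 H huu (fun h => hcon.1 h.symm) (fun h => hcon.2 h.symm)
      (fun i => Quotient.mk (lev l r H) (φ i)) hφ (fun i => ⟨(hu i).1, (hu i).2, hv i⟩)
  have hBx := hB _ (fun i => (hA i).1)
  have hBx' := hB _ (fun i => (hA i).2)
  constructor
  · intro hrel
    have heq : Quotient.mk (lev l r H) x = Quotient.mk (lev l r H) x' := Quotient.sound hrel
    -- the hub different from the class of `x`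
    obtain ⟨y, hy1, hy2⟩ : ∃ y : Φ, Quotient.mk (lev l r H) y ≠ Quotient.mk (lev l r H) x ∧
        ∀ i, ladj l r H (Quotient.mk (lev l r H) (φ i)) (Quotient.mk (lev l r H) y) := by
      rcases hBx with h | h
      · obtain ⟨y, hy⟩ := Quotient.exists_rep u'
        refine ⟨y, ?_, ?_⟩
        · change Quotient.mk (lev l r H) y = u' at hy
          rw [hy, h]; exact huu.symm
        · intro i
          change Quotient.mk (lev l r H) y = u' at hy
          rw [hy]; exact (hu i).2
      · obtain ⟨y, hy⟩ := Quotient.exists_rep u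
        refine ⟨y, ?_, ?_⟩
        · change Quotient.mk (lev l r H) y = u at hy
          rw [hy, h]; exact huu
        · intro i
          change Quotient.mk (lev l r H) y = u at hy
          rw [hy]; exact (hu i).1
    set W : Φ → ZMod 2 := fun z =>
      if Quotient.mk (lev l r Ht) z = Quotient.mk (lev l r Ht) x then 1 else 0 with hW
    set H3 := H ∪ supp l r W with hH3
    have hWt : supp l r W ⊆ Ht := by
      intro e he
      by_contra hcon
      rw [mem_supp] at he
      apply he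
      have : Quotient.mk (lev l r Ht) (l e) = Quotient.mk (lev l r Ht) (r e) :=
        Quotient.sound (lev_edge l r Ht e hcon)
      simp only [hW, this]
    have h3t : H3 ⊆ Ht := union_subset h2 hWt
    have hWsub : supp l r W ⊆ H3 := subset_union_right
    have hH3' : H ⊆ H3 := subset_union_left
    have hup : ∀ {z z' : Φ}, Quotient.mk (lev l r H) z ≠ Quotient.mk (lev l r H) z' →
        Quotient.mk (lev l r H3) z ≠ Quotient.mk (lev l r H3) z' := by
      intro z z' hne h
      exact hne (Quotient.sound (lev_mono l r hH3' (Quotient.exact h)))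
    have hW0 : ∀ z, Quotient.mk (lev l r H) z ≠ Quotient.mk (lev l r H) x → W z = 0 := by
      intro z hz
      have : Quotient.mk (lev l r Ht) z ≠ Quotient.mk (lev l r Ht) x := by
        intro h
        exact hz (Quotient.sound (lev_mono l r h2 (Quotient.exact h)))
      simp only [hW, this, if_false]
    have hkeep : ∀ {z z' : Φ}, Quotient.mk (lev l r H) z = Quotient.mk (lev l r H) z' →
        Quotient.mk (lev l r H) z ≠ Quotient.mk (lev l r H) x →
        Quotient.mk (lev l r H3) z = Quotient.mk (lev l r H3) z' := by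
      intro z z' h hne
      refine Quotient.sound (lev_refine l r H W (Quotient.exact h) ?_)
      intro w hw
      apply hW0
      intro hwx
      exact hne ((Quotient.sound hw).trans hwx)
    have hxx3 : Quotient.mk (lev l r H3) x ≠ Quotient.mk (lev l r H3) x' := by
      intro h
      have h4 := lev_supp hWsub (Quotient.exact h)
      simp only [hW] at h4
      rw [if_pos trivial, if_neg (fun h => hxx h.symm)] at h4
      exact one_ne_zero h4
    refine hD.common3 H3 (u := Quotient.mk (lev l r H3) x) (v := Quotient.mk (lev l r H3) x')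
      (w := Quotient.mk (lev l r H3) y) hxx3 (hup hy1.symm) (hup (by rw [← heq]; exact hy1.symm))
      (fun i => Quotient.mk (lev l r H3) (φ i)) ?_ ?_
    · intro i j hij
      by_contra hne
      exact hup (fun h => hne (hφ h)) hij
    · intro i
      refine ⟨ladj_mono h3t (hx i).1 (hup (hnx i).1), ladj_mono h3t (hx i).2 (hup (hnx i).2), ?_⟩
      obtain ⟨hne, e, he⟩ := hy2 i
      refine ⟨hup hne, e, ?_⟩
      simp only at he
      rcases he with ⟨e1, e2⟩ | ⟨e1, e2⟩
      · exact Or.inl ⟨hkeep e1 (by rw [e1]; exact (hnx i).1), hkeep e2 (by rw [e2]; exact hy1)⟩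
      · exact Or.inr ⟨hkeep e1 (by rw [e1]; exact hy1), hkeep e2 (by rw [e2]; exact (hnx i).1)⟩
  · have key : ∀ z : Φ, ladj l r Ht (Quotient.mk (lev l r Ht) (φ 0)) (Quotient.mk (lev l r Ht) z) →
        (lev l r H').r (φ 0) z := by
      intro z hz
      have ht' : H' ⊆ Ht := h1.trans h2
      obtain ⟨_, e, he⟩ := hz
      have heH' : e ∉ H' := by
        intro heH
        obtain ⟨h3, h4⟩ := hH' e heH
        rcases he with ⟨e1, _⟩ | ⟨_, e2⟩
        · exact h3 (Quotient.sound (lev_mono l r h2 (Quotient.exact e1)))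
        · exact h4 (Quotient.sound (lev_mono l r h2 (Quotient.exact e2)))
      have h5 := lev_edge l r H' e heH'
      rcases he with ⟨e1, e2⟩ | ⟨e1, e2⟩
      · have e1' := lev_mono l r ht' (Quotient.exact e1)
        have e2' := lev_mono l r ht' (Quotient.exact e2)
        exact (lev l r H').trans ((lev l r H').symm e1') ((lev l r H').trans h5 e2')
      · have e1' := lev_mono l r ht' (Quotient.exact e1)
        have e2' := lev_mono l r ht' (Quotient.exact e2)
        exact (lev l r H').trans ((lev l r H').symm e2')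
          ((lev l r H').trans ((lev l r H').symm h5) e1')
    exact (lev l r H').trans ((lev l r H').symm (key x (hx 0).1)) (key x' (hx 0).2)

theorem separated_pair {a b : E → V} {l r : E → Φ} (hD : IsDual a b l r)
    (H' H Ht : Finset E) (h1 : H' ⊆ H) (h2 : H ⊆ Ht) (γ : ℕ)
    (hgH : 2 ^ nH l r H ≤ 2 ^ γ * numGood (ladj l r H))
    (hNH : nH l r H * 2 ^ (2 * γ + 5) ≤ 2 ^ nH l r H)
    (hgT : 2 ^ nH l r Ht ≤ 2 ^ γ * numGood (ladj l r Ht))
    (hNT : nH l r Ht * 2 ^ (2 * γ + 5) ≤ 2 ^ nH l r Ht)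
    (hbig : 2 * kk γ + 2 * H'.card + 2 * (2 * γ) ^ 4 < nH l r H) :
    ∃ x x' : Φ, Sep (ladj l r Ht) γ (Quotient.mk (lev l r Ht) x) (Quotient.mk (lev l r Ht) x') ∧
      ¬ (lev l r H).r x x' ∧ (lev l r H').r x x' := by
  obtain ⟨X1, hX1, hub1, hf1⟩ := hub_level hD H γ hgH hNH
  obtain ⟨Xt, hXt, hubt, hft⟩ := hub_level hD Ht γ hgT hNT
  -- classes of the top level map to classes of level `H`
  let π : Quotient (lev l r Ht) → Quotient (lev l r H) :=
    Quotient.lift (fun x => Quotient.mk (lev l r H) x)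
      (fun x y h => Quotient.sound (lev_mono l r h2 h))
  have hπ : ∀ x, π (Quotient.mk (lev l r Ht) x) = Quotient.mk (lev l r H) x := fun x => rfl
  set Bad : Finset (Quotient (lev l r H)) := (X1 ∪ Xt.image π) ∪
    (H'.image (fun e => Quotient.mk (lev l r H) (l e)) ∪
      H'.image (fun e => Quotient.mk (lev l r H) (r e))) with hBad
  have hBadcard : Bad.card ≤ 2 * kk γ + 2 * H'.card := by
    have e4 : (Xt.image π).card ≤ Xt.card := card_image_le
    have e5 : (H'.image (fun e => Quotient.mk (lev l r H) (l e))).card ≤ H'.card := card_image_le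
    have e6 : (H'.image (fun e => Quotient.mk (lev l r H) (r e))).card ≤ H'.card := card_image_le
    rw [hBad]
    refine (card_union_le _ _).trans ((Nat.add_le_add (card_union_le _ _)
      (card_union_le _ _)).trans ?_)
    omega
  have hGd : 2 * (2 * γ) ^ 4 < (univ \ Bad).card := by
    rw [card_sdiff_of_subset (subset_univ _), card_univ]
    have : Fintype.card (Quotient (lev l r H)) = nH l r H := rfl
    omega
  -- choices for the classes outside `Bad`
  have hch : ∀ f ∈ univ \ Bad, ∃ p : (Quotient (lev l r H) × Quotient (lev l r H)) ×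
      (Quotient (lev l r Ht) × Quotient (lev l r Ht)),
      Sep (ladj l r H) γ p.1.1 p.1.2 ∧ ladj l r H f p.1.1 ∧ ladj l r H f p.1.2 ∧
      Sep (ladj l r Ht) γ p.2.1 p.2.2 ∧
      ladj l r Ht (Quotient.mk (lev l r Ht) f.out) p.2.1 ∧
      ladj l r Ht (Quotient.mk (lev l r Ht) f.out) p.2.2 := by
    intro f hf
    have hfB := (mem_sdiff.mp hf).2
    rw [hBad, mem_union, mem_union, not_or, not_or] at hfB
    obtain ⟨u, u', hs, ha, hb⟩ := hf1 f hfB.1.1
    obtain ⟨w, w', hs', ha', hb'⟩ := hft (Quotient.mk (lev l r Ht) f.out) (by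
      intro hmem
      apply hfB.1.2
      rw [mem_image]
      refine ⟨_, hmem, ?_⟩
      rw [hπ]
      exact Quotient.out_eq f)
    exact ⟨((u, u'), (w, w')), hs, ha, hb, hs', ha', hb'⟩
  have hne : Nonempty ((Quotient (lev l r H) × Quotient (lev l r H)) ×
      (Quotient (lev l r Ht) × Quotient (lev l r Ht))) := by
    have : (univ \ Bad).Nonempty := by rw [← card_pos]; omega
    obtain ⟨f, hf⟩ := this
    exact ⟨(hch f hf).choose⟩
  choose! p hp using hch
  set T := (hubs (ladj l r H) γ ×ˢ hubs (ladj l r H) γ) ×ˢ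
    (hubs (ladj l r Ht) γ ×ˢ hubs (ladj l r Ht) γ) with hT
  have hmaps : ∀ f ∈ univ \ Bad, p f ∈ T := by
    intro f hf
    obtain ⟨q1, _, _, q2, _, _⟩ := hp f hf
    rw [hT, mem_product, mem_product, mem_product]
    exact ⟨mem_hubs q1, mem_hubs q2⟩
  have hTcard : T.card ≤ (2 * γ) ^ 4 := by
    rw [hT, card_product, card_product, card_product]
    have c1 := hubs_card (ladj l r H) γ hgH
    have c2 := hubs_card (ladj l r Ht) γ hgT
    calc _ ≤ (2 * γ) * (2 * γ) * ((2 * γ) * (2 * γ)) :=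
          Nat.mul_le_mul (Nat.mul_le_mul c1 c1) (Nat.mul_le_mul c2 c2)
      _ = _ := by ring
  obtain ⟨⟨⟨u, u'⟩, ⟨w, w'⟩⟩, _, hfib⟩ :=
    Finset.exists_lt_card_fiber_of_mul_lt_card_of_maps_to (n := 2) hmaps (by omega)
  obtain ⟨f1, m1, f2, m2, f3, m3, h12, h13, h23⟩ := Finset.two_lt_card.mp hfib
  rw [mem_filter] at m1 m2 m3
  obtain ⟨x, hx⟩ := Quotient.exists_rep w
  obtain ⟨x', hx'⟩ := Quotient.exists_rep w'
  change Quotient.mk (lev l r Ht) x = w at hx
  change Quotient.mk (lev l r Ht) x' = w' at hx'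
  have hprop : ∀ f, f = f1 ∨ f = f2 ∨ f = f3 → f ∈ univ \ Bad ∧
      (Sep (ladj l r H) γ u u' ∧ ladj l r H f u ∧ ladj l r H f u' ∧
      Sep (ladj l r Ht) γ w w' ∧
      ladj l r Ht (Quotient.mk (lev l r Ht) f.out) w ∧
      ladj l r Ht (Quotient.mk (lev l r Ht) f.out) w') := by
    intro f hf
    have hm : f ∈ univ \ Bad ∧ p f = ((u, u'), (w, w')) := by
      rcases hf with rfl | rfl | rfl
      · exact m1
      · exact m2
      · exact m3
    have := hp f hm.1
    rw [hm.2] at this
    exact ⟨hm.1, this⟩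
  obtain ⟨hf1B, hsu, _, _, hsw, _, _⟩ := hprop f1 (Or.inl rfl)
  have hnot : ∀ f, f ∈ univ \ Bad → ∀ z, z ∈ hubs (ladj l r Ht) γ → f ≠ π z := by
    intro f hf z hz heq
    have hfB := (mem_sdiff.mp hf).2
    rw [hBad, mem_union, mem_union, not_or, not_or] at hfB
    exact hfB.1.2 (mem_image.mpr ⟨z, hubt hz, heq.symm⟩)
  let fs : Fin 3 → Quotient (lev l r H) := ![f1, f2, f3]
  have hfs : ∀ i, fs i = f1 ∨ fs i = f2 ∨ fs i = f3 := by
    intro i; fin_cases i
    · exact Or.inl rfl
    · exact Or.inr (Or.inl rfl)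
    · exact Or.inr (Or.inr rfl)
  have hout : ∀ i, Quotient.mk (lev l r H) (fs i).out = fs i := fun i => Quotient.out_eq _
  refine ⟨x, x', by rw [hx, hx']; exact hsw, ?_⟩
  refine pair_from_three hD H' H Ht h1 h2 u u' (sep_ne _ _ hgH hsu) x x' ?_
    (fun i => (fs i).out) ?_ ?_ ?_ ?_ ?_
  · rw [hx, hx']; exact sep_ne _ _ hgT hsw
  · simp only [hout]
    exact inj3 h12 h13 h23
  · intro i
    simp only [hout]
    obtain ⟨_, _, q1, q2, _⟩ := hprop (fs i) (hfs i)
    exact ⟨q1, q2⟩
  · intro i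
    rw [hx, hx']
    obtain ⟨_, _, _, _, _, q1, q2⟩ := hprop (fs i) (hfs i)
    exact ⟨q1, q2⟩
  · intro i
    simp only [hout]
    obtain ⟨q0, _⟩ := hprop (fs i) (hfs i)
    have e1 := hnot (fs i) q0 w (mem_hubs hsw).1
    have e2 := hnot (fs i) q0 w' (mem_hubs hsw).2
    rw [← hx, hπ] at e1
    rw [← hx', hπ] at e2
    exact ⟨e1, e2⟩
  · intro e he
    simp only [hout]
    have hfB := (mem_sdiff.mp hf1B).2
    rw [hBad, mem_union, mem_union, mem_union, not_or, not_or, not_or] at hfB
    change Quotient.mk (lev l r H) (l e) ≠ f1 ∧ Quotient.mk (lev l r H) (r e) ≠ f1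
    exact ⟨fun h => hfB.2.1 (mem_image.mpr ⟨e, he, h⟩),
      fun h => hfB.2.2 (mem_image.mpr ⟨e, he, h⟩)⟩

theorem pow_room (s N : ℕ) (h : 2 * s + 2 ≤ N) : N * 2 ^ s ≤ 2 ^ N := by
  obtain ⟨t, rfl⟩ : ∃ t, N = s + (s + 2 + t) := ⟨N - (2 * s + 2), by omega⟩
  rw [pow_add 2 s (s + 2 + t), mul_comm]
  apply Nat.mul_le_mul_left
  have h1 : s + 1 + t + 1 ≤ 2 ^ (s + 1 + t) := Nat.lt_two_pow_self
  have h2 : 2 ^ (s + 2 + t) = 2 * 2 ^ (s + 1 + t) := by ring
  omega

/-- Constant needed to pass from one level to the next. -/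
def rad (γ : ℕ) : ℕ := 2 * kk γ + 2 * (2 * γ) ^ 4 + 4 * γ + 12

theorem nH_large {l r : E → Φ} {n : ℕ} {A : ℕ → Φ → ZMod 2} (hF : Fam l r n A) (k X : ℕ)
    (h4 : 4 ≤ k) (hk : k ≤ n) (hX : 2 ^ X ≤ k) : X ≤ nH l r (uu l r A k) := by
  have h1 := (hF.numGood k hk).trans (Fam.numGood_le l r (uu l r A k))
  have h2 : 2 ^ X ≤ 2 ^ nH l r (uu l r A k) := by omega
  exact (Nat.pow_le_pow_iff_right (by norm_num)).mp h2

theorem chain_false {a b : E → V} {l r : E → Φ} (hD : IsDual a b l r) {n : ℕ}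
    {A : ℕ → Φ → ZMod 2} (hF : Fam l r n A) (C γ : ℕ)
    (hE : 2 ^ (Fintype.card E - n) ≤ n * 2 ^ C) (hγ : 2 ^ (C + 4) * (C + 6) ≤ 2 ^ γ)
    (κ : ℕ → ℕ) (h0 : κ 0 = 2) (hlast : κ (γ + 1) = n)
    (hstep : ∀ j ≤ γ, 2 ^ (rad γ + 4 * (C + 6) * κ j) ≤ κ (j + 1)) : False := by
  have hmono1 : ∀ j ≤ γ, κ j ≤ κ (j + 1) := by
    intro j hj
    refine le_trans ?_ (hstep j hj)
    have h1 : rad γ + 4 * (C + 6) * κ j < 2 ^ (rad γ + 4 * (C + 6) * κ j) := Nat.lt_two_pow_self
    nlinarith [Nat.zero_le (rad γ), Nat.zero_le (κ j), Nat.zero_le (C * κ j)]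
  have hmono : ∀ i j, i ≤ j → j ≤ γ + 1 → κ i ≤ κ j := by
    intro i j hij
    induction j, hij using Nat.le_induction with
    | base => intro _; exact le_rfl
    | succ j hij ih => intro hj; exact (ih (by omega)).trans (hmono1 j (by omega))
  have hkn : ∀ j ≤ γ + 1, κ j ≤ n := fun j hj => by rw [← hlast]; exact hmono j _ hj le_rfl
  have hk4 : ∀ j ≤ γ, 4 ≤ κ (j + 1) := by
    intro j hj
    refine le_trans ?_ (hstep j hj)
    calc 4 = 2 ^ 2 := by norm_num
      _ ≤ 2 ^ (rad γ + 4 * (C + 6) * κ j) := by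
        apply Nat.pow_le_pow_right (by norm_num)
        unfold rad
        omega
  have hn : 4 ≤ n := by rw [← hlast]; exact hk4 γ le_rfl
  have hgood : ∀ j ≤ γ, 2 ^ nH l r (uu l r A (κ (j + 1)))
      ≤ 2 ^ γ * numGood (ladj l r (uu l r A (κ (j + 1)))) := fun j hj =>
    hF.dense C γ hn hE hγ _ (hk4 j hj) (hkn _ (by omega))
  have hbig : ∀ j ≤ γ, rad γ + 4 * (C + 6) * κ j ≤ nH l r (uu l r A (κ (j + 1))) :=
    fun j hj => nH_large hF _ _ (hk4 j hj) (hkn _ (by omega)) (hstep j hj)
  have hroom : ∀ j ≤ γ, nH l r (uu l r A (κ (j + 1))) * 2 ^ (2 * γ + 5)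
      ≤ 2 ^ nH l r (uu l r A (κ (j + 1))) := by
    intro j hj
    apply pow_room
    have := hbig j hj
    unfold rad at this
    omega
  have hpair : ∀ j ≤ γ, ∃ x x' : Φ,
      Sep (ladj l r (uu l r A n)) γ (Quotient.mk (lev l r (uu l r A n)) x)
        (Quotient.mk (lev l r (uu l r A n)) x') ∧
      ¬ (lev l r (uu l r A (κ (j + 1)))).r x x' ∧ (lev l r (uu l r A (κ j))).r x x' := by
    intro j hj
    have hT1 := hgood γ le_rfl
    have hT2 := hroom γ le_rfl
    rw [hlast] at hT1 hT2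
    refine separated_pair hD _ _ _ (uu_mono (hmono1 j hj)) (uu_mono (hkn _ (by omega))) γ
      (hgood j hj) (hroom j hj) hT1 hT2 ?_
    have h1 := (hF.bounds C hn hE (κ j) (by rw [← h0]; exact hmono 0 j (by omega) (by omega))
      (hkn j (by omega))).1
    have h2 := hbig j hj
    unfold rad at h2
    have h3 : 2 * (2 * (C + 6) * κ j) = 4 * (C + 6) * κ j := by ring
    omega
  have hlist : ∀ t, t ≤ γ + 1 → ∃ ps : List (Quotient (lev l r (uu l r A n)) ×
      Quotient (lev l r (uu l r A n))), Tri ps ∧ ps.length = t ∧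
      (∀ p ∈ ps, Sep (ladj l r (uu l r A n)) γ p.1 p.2) ∧
      (∀ p ∈ ps, ∃ x x' : Φ, p = (Quotient.mk _ x, Quotient.mk _ x') ∧
        (lev l r (uu l r A (κ (γ + 1 - t)))).r x x') := by
    intro t
    induction t with
    | zero =>
      intro _
      exact ⟨[], Tri.nil, rfl, by simp, by simp⟩
    | succ t ih =>
      intro ht
      obtain ⟨ps, htri, hlen, hsep, hrel⟩ := ih (by omega)
      obtain ⟨x, x', hs, hn1, hn2⟩ := hpair (γ - t) (by omega)
      have e1 : γ - t + 1 = γ + 1 - t := by omega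
      have e2 : γ + 1 - (t + 1) = γ - t := by omega
      rw [e1] at hn1
      rw [e2]
      have hsub : uu l r A (κ (γ + 1 - t)) ⊆ uu l r A n := uu_mono (hkn _ (by omega))
      have hsub2 : uu l r A (κ (γ - t)) ⊆ uu l r A (κ (γ + 1 - t)) :=
        uu_mono (hmono _ _ (by omega) (by omega))
      let Y : Quotient (lev l r (uu l r A n)) → ZMod 2 :=
        Quotient.lift (fun z => if (lev l r (uu l r A (κ (γ + 1 - t)))).r x z then 1 else 0) (by
          intro z z' h
          have h1 := lev_mono l r hsub h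
          have h2 : (lev l r (uu l r A (κ (γ + 1 - t)))).r x z ↔
              (lev l r (uu l r A (κ (γ + 1 - t)))).r x z' :=
            ⟨fun h3 => (lev l r _).trans h3 h1, fun h3 => (lev l r _).trans h3
              ((lev l r _).symm h1)⟩
          simp only [h2])
      have hY : ∀ z, Y (Quotient.mk _ z)
          = if (lev l r (uu l r A (κ (γ + 1 - t)))).r x z then 1 else 0 := fun z => rfl
      refine ⟨(Quotient.mk _ x, Quotient.mk _ x') :: ps, Tri.cons _ _ Y ?_ ?_ htri, ?_, ?_, ?_⟩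
      · simp only [hY]
        rw [if_pos ((lev l r _).refl x), if_neg hn1]
        exact one_ne_zero
      · intro q hq
        obtain ⟨z, z', rfl, hz⟩ := hrel q hq
        simp only [hY]
        have h2 : (lev l r (uu l r A (κ (γ + 1 - t)))).r x z ↔
            (lev l r (uu l r A (κ (γ + 1 - t)))).r x z' :=
          ⟨fun h3 => (lev l r _).trans h3 hz, fun h3 => (lev l r _).trans h3
            ((lev l r _).symm hz)⟩
        simp only [h2]
      · simp [hlen]
      · intro p hp
        rcases List.mem_cons.mp hp with rfl | hp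
        · exact hs
        · exact hsep p hp
      · intro p hp
        rcases List.mem_cons.mp hp with rfl | hp
        · exact ⟨x, x', rfl, hn2⟩
        · obtain ⟨z, z', rfl, hz⟩ := hrel p hp
          exact ⟨z, z', rfl, lev_mono l r hsub2 hz⟩
  obtain ⟨ps, htri, hlen, hsep, _⟩ := hlist (γ + 1) le_rfl
  have hT1 := hgood γ le_rfl
  rw [hlast] at hT1
  exact no_tri (ladj l r (uu l r A n)) γ hT1 ps htri hlen hsep

end Pool.Agent.Helper86
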